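import Mathlib

/-!
The notions which occur in the statement: superreflexive spaces, subquotients, uniformly
homeomorphic unit spheres.
-/

universe u

namespace Pool.Agent.Helper29.SphereUniform

/-- `X` is superreflexive: it is linearly homeomorphic to a uniformly convex Banach space, i.e. it
has an equivalent uniformly convex norm. -/
def Superreflexive (X : Type u) [NormedAddCommGroup X] [NormedSpace ℝ X] : Prop :=
  ∃ (X' : Type u) (_ : NormedAddCommGroup X') (_ : NormedSpace ℝ X'),
    CompleteSpace X' ∧ UniformConvexSpace X' ∧ Nonempty (X ≃L[ℝ] X')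

/-- `Y` is a subquotient of `X`: the image of a closed linear subspace of `X` under a bounded
linear surjection. -/
def Subquotient (Y X : Type u) [NormedAddCommGroup Y] [NormedSpace ℝ Y] [NormedAddCommGroup X]
    [NormedSpace ℝ X] : Prop :=
  ∃ V : Submodule ℝ X, IsClosed (V : Set X) ∧ ∃ T : V →L[ℝ] Y, Function.Surjective T

/-- `Y` is crudely finitely representable in `X`: for some `K`, every finite dimensional linear
subspace of `Y` admits a linear embedding `J` into `X` with `‖e‖ ≤ ‖J e‖ ≤ K ‖e‖`. -/
def FinitelyRepresentable (Y X : Type u) [NormedAddCommGroup Y] [NormedSpace ℝ Y]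
    [NormedAddCommGroup X] [NormedSpace ℝ X] : Prop :=
  ∃ K : ℝ, ∀ E : Submodule ℝ Y, FiniteDimensional ℝ E →
    ∃ J : E →ₗ[ℝ] X, ∀ e, ‖e‖ ≤ ‖J e‖ ∧ ‖J e‖ ≤ K * ‖e‖

/-- The unit spheres of `X` and `Y` are uniformly homeomorphic. -/
def SpheresEquivalent (X Y : Type u) [NormedAddCommGroup X] [NormedAddCommGroup Y] : Prop :=
  Nonempty (Metric.sphere (0 : X) 1 ≃ᵤ Metric.sphere (0 : Y) 1)

/-- The density character of `X` is at most the Hilbert dimension of `H`: some dense subset of `X`
indexes an orthonormal family of `H`. -/
def DensityLE (X H : Type u) [NormedAddCommGroup X] [NormedAddCommGroup H]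
    [InnerProductSpace ℝ H] : Prop :=
  ∃ D : Set X, Dense D ∧ ∃ v : D → H, Orthonormal ℝ v

/-- The tame Banach spaces: the smallest class of Banach spaces which contains the Hilbert spaces
and is closed under
* `sphere`: superreflexive spaces whose unit sphere is uniformly homeomorphic to the unit sphere of
  a tame space;
* `subquotient`: Banach spaces which are subquotients of a tame space;
* `finrep`: Banach spaces which are finitely representable in a tame space;
* `sum`: the `ℓ^p`-sum of countably many copies of a tame space, `1 < p < ∞`;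
* `extension`: superreflexive middle terms `X` of exact sequences `0 → Y → X → Z → 0` with tame `Y`
  and `Z`. -/
inductive Tame : ∀ (X : Type u) [NormedAddCommGroup X] [NormedSpace ℝ X], Prop
  | hilbert (X : Type u) [NormedAddCommGroup X] [InnerProductSpace ℝ X] [CompleteSpace X] : Tame X
  | sphere (X Y : Type u) [NormedAddCommGroup X] [NormedSpace ℝ X]
      [NormedAddCommGroup Y] [NormedSpace ℝ Y] :
      Tame X → Superreflexive Y → SpheresEquivalent X Y → Tame Y
  | subquotient (X Y : Type u) [NormedAddCommGroup X] [NormedSpace ℝ X]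
      [NormedAddCommGroup Y] [NormedSpace ℝ Y] [CompleteSpace Y] :
      Tame X → Subquotient Y X → Tame Y
  | finrep (X Y : Type u) [NormedAddCommGroup X] [NormedSpace ℝ X]
      [NormedAddCommGroup Y] [NormedSpace ℝ Y] [CompleteSpace Y] :
      Tame X → FinitelyRepresentable Y X → Tame Y
  | sum (X : Type u) [NormedAddCommGroup X] [NormedSpace ℝ X] (p : ENNReal) [Fact (1 ≤ p)] :
      Tame X → 1 < p → p ≠ ⊤ → Tame (lp (fun _ : ℕ => X) p)
  | extension (Y X Z : Type u) [NormedAddCommGroup Y] [NormedSpace ℝ Y]
      [NormedAddCommGroup X] [NormedSpace ℝ X] [NormedAddCommGroup Z] [NormedSpace ℝ Z]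
      (J : Y →L[ℝ] X) (T : X →L[ℝ] Z) :
      Function.Injective J → Function.Surjective T → (∀ x, T x = 0 ↔ ∃ y, J y = x) →
      Superreflexive X → Tame Y → Tame Z → Tame X

end Pool.Agent.Helper29.SphereUniform
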