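import Mathlib
import Pool.Agent.Helper29.SphU.Defs

/-!
Spaces which are absorbed by a Hilbert space.
-/

universe u

namespace Pool.Agent.Helper29.SphereUniform

/-- `X` is absorbed by a Hilbert space: for some infinite dimensional Hilbert space `H` the unit
spheres of `X × H` and of `H` are uniformly homeomorphic. -/
def HilbertAbsorbed (X : Type u) [NormedAddCommGroup X] [NormedSpace ℝ X] : Prop :=
  ∃ (H : Type u) (_ : NormedAddCommGroup H) (_ : InnerProductSpace ℝ H),
    CompleteSpace H ∧ ¬ FiniteDimensional ℝ H ∧ SpheresEquivalent (X × H) H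

end Pool.Agent.Helper29.SphereUniform
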