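import Mathlib

/-!
Positively homogeneous bijections between Banach spaces which are uniformly continuous on bounded
sets in both directions, and their relation with uniform homeomorphisms of unit spheres.
-/

set_option linter.unusedSectionVars false

namespace Pool.Agent.Helper29.SphU

open Metric

/-- Uniform continuity on bounded sets, in a form which is adapted to positively homogeneous
maps. -/
def LM {X Y : Type*} [NormedAddCommGroup X] [NormedAddCommGroup Y] (f : X → Y) : Prop :=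
  ∀ ε > 0, ∃ C : ℝ, 0 ≤ C ∧ ∀ a b : X, ‖f a - f b‖ ≤ ε * (‖a‖ + ‖b‖) + C * ‖a - b‖

lemma LM.id {X : Type*} [NormedAddCommGroup X] : LM (fun x : X => x) := by
  intro ε hε
  refine ⟨1, zero_le_one, fun a b => ?_⟩
  have : 0 ≤ ε * (‖a‖ + ‖b‖) := by positivity
  linarith

lemma LM.bound {X Y : Type*} [NormedAddCommGroup X] [NormedAddCommGroup Y] {f : X → Y}
    (hf : LM f) (h0 : f 0 = 0) : ∃ K : ℝ, 0 < K ∧ ∀ a, ‖f a‖ ≤ K * ‖a‖ := by
  obtain ⟨C, hC, h⟩ := hf 1 one_pos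
  refine ⟨1 + C, by positivity, fun a => ?_⟩
  have := h a 0
  rw [h0, sub_zero, sub_zero, norm_zero] at this
  linarith

lemma LM.comp {X Y Z : Type*} [NormedAddCommGroup X] [NormedAddCommGroup Y] [NormedAddCommGroup Z]
    {g : Y → Z} {f : X → Y} (hg : LM g) (hf : LM f) (h0 : f 0 = 0) : LM (fun x => g (f x)) := by
  intro ε hε
  obtain ⟨K, hK, hKb⟩ := hf.bound h0
  obtain ⟨C, hC, hg'⟩ := hg (ε / (2 * K)) (by positivity)
  obtain ⟨D, hD, hf'⟩ := hf (ε / (2 * (C + 1))) (by positivity)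
  refine ⟨C * D, by positivity, fun a b => ?_⟩
  have h1 := hg' (f a) (f b)
  have h2 := hf' a b
  have h3 := hKb a
  have h4 := hKb b
  have e1 : ε / (2 * K) * (‖f a‖ + ‖f b‖) ≤ ε / 2 * (‖a‖ + ‖b‖) := by
    calc ε / (2 * K) * (‖f a‖ + ‖f b‖) ≤ ε / (2 * K) * (K * ‖a‖ + K * ‖b‖) :=
          mul_le_mul_of_nonneg_left (by linarith) (by positivity)
      _ = ε / 2 * (‖a‖ + ‖b‖) := by field_simp
  have e2 : C * ‖f a - f b‖ ≤ ε / 2 * (‖a‖ + ‖b‖) + C * D * ‖a - b‖ := by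
    have s0 : 0 ≤ ‖a‖ + ‖b‖ := by positivity
    have s1 : C * (ε / (2 * (C + 1))) ≤ ε / 2 := by
      rw [mul_div_assoc', div_le_div_iff₀ (by positivity) (by positivity)]
      nlinarith
    calc C * ‖f a - f b‖ ≤ C * (ε / (2 * (C + 1)) * (‖a‖ + ‖b‖) + D * ‖a - b‖) :=
          mul_le_mul_of_nonneg_left h2 hC
      _ = C * (ε / (2 * (C + 1))) * (‖a‖ + ‖b‖) + C * D * ‖a - b‖ := by ring
      _ ≤ ε / 2 * (‖a‖ + ‖b‖) + C * D * ‖a - b‖ := by
          have := mul_le_mul_of_nonneg_right s1 s0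
          linarith
  calc ‖g (f a) - g (f b)‖ ≤ _ := h1
    _ ≤ ε / 2 * (‖a‖ + ‖b‖) + (ε / 2 * (‖a‖ + ‖b‖) + C * D * ‖a - b‖) := add_le_add e1 e2
    _ = ε * (‖a‖ + ‖b‖) + C * D * ‖a - b‖ := by ring

lemma LM.of_linear {X Y : Type*} [NormedAddCommGroup X] [NormedAddCommGroup Y] {f : X → Y}
    (hs : ∀ a b, f a - f b = f (a - b)) {K : ℝ} (hK : 0 ≤ K) (h : ∀ a, ‖f a‖ ≤ K * ‖a‖) :
    LM f := by
  intro ε hε
  refine ⟨K, hK, fun a b => ?_⟩
  rw [hs]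
  have h1 : 0 ≤ ε * (‖a‖ + ‖b‖) := by positivity
  linarith [h (a - b)]

lemma LM.prod {X Y Z : Type*} [NormedAddCommGroup X] [NormedAddCommGroup Y] [NormedAddCommGroup Z]
    {f : X → Y} {g : X → Z} (hf : LM f) (hg : LM g) : LM (fun x => (f x, g x)) := by
  intro ε hε
  obtain ⟨C, hC, h1⟩ := hf ε hε
  obtain ⟨D, hD, h2⟩ := hg ε hε
  refine ⟨C + D, by positivity, fun a b => ?_⟩
  rw [Prod.norm_def]
  have h0 := norm_nonneg (a - b)
  refine max_le ?_ ?_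
  · have := h1 a b
    have e : 0 ≤ D * ‖a - b‖ := by positivity
    simp only [Prod.fst_sub]
    linarith
  · have := h2 a b
    have e : 0 ≤ C * ‖a - b‖ := by positivity
    simp only [Prod.snd_sub]
    linarith

lemma LM.add {X Y : Type*} [NormedAddCommGroup X] [NormedAddCommGroup Y]
    {f g : X → Y} (hf : LM f) (hg : LM g) : LM (fun x => f x + g x) := by
  intro ε hε
  obtain ⟨C, hC, h1⟩ := hf (ε / 2) (by positivity)
  obtain ⟨D, hD, h2⟩ := hg (ε / 2) (by positivity)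
  refine ⟨C + D, by positivity, fun a b => ?_⟩
  have e : f a + g a - (f b + g b) = (f a - f b) + (g a - g b) := by abel
  rw [e]
  have := norm_add_le (f a - f b) (g a - g b)
  have := h1 a b
  have := h2 a b
  linarith

lemma LM.neg {X Y : Type*} [NormedAddCommGroup X] [NormedAddCommGroup Y]
    {f : X → Y} (hf : LM f) : LM (fun x => - f x) := by
  intro ε hε
  obtain ⟨C, hC, h1⟩ := hf ε hε
  refine ⟨C, hC, fun a b => ?_⟩
  have e : - f a - - f b = - (f a - f b) := by abel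
  rw [e, norm_neg]
  exact h1 a b

/-- Positively homogeneous bijections, uniformly continuous on bounded sets in both directions. -/
structure BU (X Y : Type*) [NormedAddCommGroup X] [NormedSpace ℝ X] [NormedAddCommGroup Y]
    [NormedSpace ℝ Y] where
  f : X → Y
  g : Y → X
  gf : ∀ x, g (f x) = x
  fg : ∀ y, f (g y) = y
  hom : ∀ t : ℝ, 0 ≤ t → ∀ x, f (t • x) = t • f x
  lf : LM f
  lg : LM g

namespace BU

variable {X Y Z W : Type*} [NormedAddCommGroup X] [NormedSpace ℝ X] [NormedAddCommGroup Y]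
    [NormedSpace ℝ Y] [NormedAddCommGroup Z] [NormedSpace ℝ Z] [NormedAddCommGroup W]
    [NormedSpace ℝ W]

lemma f_zero (e : BU X Y) : e.f 0 = 0 := by
  have := e.hom 0 le_rfl 0
  simpa using this

lemma g_zero (e : BU X Y) : e.g 0 = 0 := by
  rw [← e.f_zero, e.gf]

lemma ghom (e : BU X Y) (t : ℝ) (ht : 0 ≤ t) (y : Y) : e.g (t • y) = t • e.g y := by
  rw [← e.gf (t • e.g y), e.hom t ht, e.fg]

lemma f_ne (e : BU X Y) {x : X} (hx : x ≠ 0) : e.f x ≠ 0 := by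
  intro h
  apply hx
  rw [← e.gf x, h, e.g_zero]

def refl (X : Type*) [NormedAddCommGroup X] [NormedSpace ℝ X] : BU X X :=
  ⟨fun x => x, fun x => x, fun _ => rfl, fun _ => rfl, fun _ _ _ => rfl, LM.id, LM.id⟩

def symm (e : BU X Y) : BU Y X := ⟨e.g, e.f, e.fg, e.gf, e.ghom, e.lg, e.lf⟩

def trans (e : BU X Y) (e' : BU Y Z) : BU X Z where
  f x := e'.f (e.f x)
  g z := e.g (e'.g z)
  gf x := by rw [e'.gf, e.gf]
  fg x := by rw [e.fg, e'.fg]
  hom t ht x := by rw [e.hom t ht, e'.hom t ht]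
  lf := e'.lf.comp e.lf e.f_zero
  lg := e.lg.comp e'.lg e'.g_zero

lemma lm_fst : LM (fun p : X × Y => p.1) :=
  LM.of_linear (fun _ _ => rfl) zero_le_one (fun a => by rw [one_mul]; exact norm_fst_le a)

lemma lm_snd : LM (fun p : X × Y => p.2) :=
  LM.of_linear (fun _ _ => rfl) zero_le_one (fun a => by rw [one_mul]; exact norm_snd_le a)

def prod (e : BU X Y) (e' : BU Z W) : BU (X × Z) (Y × W) where
  f p := (e.f p.1, e'.f p.2)
  g p := (e.g p.1, e'.g p.2)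
  gf p := by simp only [e.gf, e'.gf]
  fg p := by simp only [e.fg, e'.fg]
  hom t ht p := by
    simp only [Prod.smul_fst, Prod.smul_snd, e.hom t ht, e'.hom t ht, Prod.smul_mk]
  lf := LM.prod (e.lf.comp lm_fst rfl) (e'.lf.comp lm_snd rfl)
  lg := LM.prod (e.lg.comp lm_fst rfl) (e'.lg.comp lm_snd rfl)

def comm (X Y : Type*) [NormedAddCommGroup X] [NormedSpace ℝ X] [NormedAddCommGroup Y]
    [NormedSpace ℝ Y] : BU (X × Y) (Y × X) where
  f p := (p.2, p.1)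
  g p := (p.2, p.1)
  gf _ := rfl
  fg _ := rfl
  hom _ _ _ := rfl
  lf := LM.prod lm_snd lm_fst
  lg := LM.prod lm_snd lm_fst

def assoc (X Y Z : Type*) [NormedAddCommGroup X] [NormedSpace ℝ X] [NormedAddCommGroup Y]
    [NormedSpace ℝ Y] [NormedAddCommGroup Z] [NormedSpace ℝ Z] : BU ((X × Y) × Z) (X × Y × Z) where
  f p := (p.1.1, p.1.2, p.2)
  g p := ((p.1, p.2.1), p.2.2)
  gf _ := rfl
  fg _ := rfl
  hom _ _ _ := rfl
  lf := LM.prod (lm_fst.comp lm_fst rfl) (LM.prod (lm_snd.comp lm_fst rfl) lm_snd)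
  lg := LM.prod (LM.prod lm_fst (lm_fst.comp lm_snd rfl)) (lm_snd.comp lm_snd rfl)

/-- A continuous linear equivalence. -/
def ofCLE (e : X ≃L[ℝ] Y) : BU X Y where
  f := e
  g := e.symm
  gf x := e.symm_apply_apply x
  fg y := e.apply_symm_apply y
  hom t _ x := map_smul e t x
  lf := LM.of_linear (fun a b => (map_sub e a b).symm) (norm_nonneg (e : X →L[ℝ] Y))
    (fun a => (e : X →L[ℝ] Y).le_opNorm a)
  lg := LM.of_linear (fun a b => (map_sub e.symm a b).symm) (norm_nonneg (e.symm : Y →L[ℝ] X))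
    (fun a => (e.symm : Y →L[ℝ] X).le_opNorm a)

end BU

section spheres

variable {X Y : Type*} [NormedAddCommGroup X] [NormedSpace ℝ X] [NormedAddCommGroup Y]
    [NormedSpace ℝ Y]

/-- The radial projection to the sphere. -/
noncomputable def nrm (x : X) (hx : x ≠ 0) : sphere (0 : X) 1 :=
  ⟨‖x‖⁻¹ • x, by
    rw [mem_sphere_zero_iff_norm, norm_smul, norm_inv, norm_norm,
      inv_mul_cancel₀ (norm_ne_zero_iff.2 hx)]⟩

lemma nrm_dist (x y : X) (hx : x ≠ 0) (hy : y ≠ 0) :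
    dist (nrm x hx) (nrm y hy) ≤ 2 * ‖x - y‖ / ‖x‖ := by
  rw [Subtype.dist_eq, dist_eq_norm]
  simp only [nrm]
  have hx' : 0 < ‖x‖ := norm_pos_iff.2 hx
  have hy' : 0 < ‖y‖ := norm_pos_iff.2 hy
  have e : ‖x‖⁻¹ • x - ‖y‖⁻¹ • y = ‖x‖⁻¹ • (x - y) + (‖x‖⁻¹ - ‖y‖⁻¹) • y := by
    rw [smul_sub, sub_smul]; abel
  rw [e]
  refine (norm_add_le _ _).trans ?_
  rw [norm_smul, norm_smul, norm_inv, norm_norm]
  have e2 : ‖‖x‖⁻¹ - ‖y‖⁻¹‖ * ‖y‖ = ‖x‖⁻¹ * |‖y‖ - ‖x‖| := by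
    have : ‖x‖⁻¹ - ‖y‖⁻¹ = (‖y‖ - ‖x‖) * (‖x‖⁻¹ * ‖y‖⁻¹) := by field_simp
    rw [this, Real.norm_eq_abs, abs_mul, abs_of_pos (by positivity : 0 < ‖x‖⁻¹ * ‖y‖⁻¹)]
    field_simp
  rw [e2]
  have h3 : |‖y‖ - ‖x‖| ≤ ‖x - y‖ := by
    rw [norm_sub_rev]; exact abs_norm_sub_norm_le y x
  have h4 : ‖x‖⁻¹ * |‖y‖ - ‖x‖| ≤ ‖x‖⁻¹ * ‖x - y‖ :=
    mul_le_mul_of_nonneg_left h3 (by positivity)
  calc ‖x‖⁻¹ * ‖x - y‖ + ‖x‖⁻¹ * |‖y‖ - ‖x‖| ≤ ‖x‖⁻¹ * ‖x - y‖ + ‖x‖⁻¹ * ‖x - y‖ := by linarith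
    _ = 2 * ‖x - y‖ / ‖x‖ := by field_simp; ring

lemma sph_ne (u : sphere (0 : X) 1) : (u : X) ≠ 0 := by
  intro h
  have := u.2
  rw [mem_sphere_zero_iff_norm, h, norm_zero] at this
  exact zero_ne_one this

lemma sph_norm (u : sphere (0 : X) 1) : ‖(u : X)‖ = 1 := mem_sphere_zero_iff_norm.1 u.2

lemma nrm_smul (x : X) (hx : x ≠ 0) (t : ℝ) (ht : 0 < t) (htx : t • x ≠ 0) :
    nrm (t • x) htx = nrm x hx := by
  apply Subtype.ext
  simp only [nrm]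
  rw [norm_smul, Real.norm_eq_abs, abs_of_pos ht, smul_smul]
  congr 1
  have : ‖x‖ ≠ 0 := norm_ne_zero_iff.2 hx
  field_simp

lemma nrm_of_sph (u : sphere (0 : X) 1) (hu : (u : X) ≠ 0) : nrm (u : X) hu = u := by
  apply Subtype.ext
  simp only [nrm, sph_norm, inv_one, one_smul]

lemma uc_of_LM {f : X → Y} (hf : LM f) (h : ∀ x, x ≠ 0 → f x ≠ 0) {c : ℝ} (hc : 0 < c)
    (hb : ∀ x : X, c * ‖x‖ ≤ ‖f x‖) :
    UniformContinuous (fun u : sphere (0 : X) 1 => nrm (f u) (h u (sph_ne u))) := by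
  rw [Metric.uniformContinuous_iff]
  intro ε hε
  obtain ⟨C, hC, hC'⟩ := hf (ε * c / 8) (by positivity)
  refine ⟨ε * c / (4 * (C + 1)), by positivity, fun {u v} huv => ?_⟩
  refine (nrm_dist _ _ _ _).trans_lt ?_
  have h1 : c ≤ ‖f u‖ := by have := hb u; rwa [sph_norm, mul_one] at this
  have h2 := hC' u v
  rw [sph_norm, sph_norm] at h2
  have h3 : ‖(u : X) - v‖ < ε * c / (4 * (C + 1)) := by
    rwa [Subtype.dist_eq, dist_eq_norm] at huv
  have h4 : C * ‖(u : X) - v‖ ≤ ε * c / 4 * (C / (C + 1)) := by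
    calc C * ‖(u : X) - v‖ ≤ C * (ε * c / (4 * (C + 1))) := mul_le_mul_of_nonneg_left h3.le hC
      _ = ε * c / 4 * (C / (C + 1)) := by field_simp
  have h5 : C / (C + 1) < 1 := by rw [div_lt_one (by positivity)]; linarith
  have h6 : ε * c / 4 * (C / (C + 1)) < ε * c / 4 * 1 :=
    mul_lt_mul_of_pos_left h5 (by positivity)
  have h7 : ‖f u - f v‖ < ε * c / 2 := by linarith
  rw [div_lt_iff₀ (by linarith)]
  nlinarith

/-- From a homogeneous bijection to the spheres. -/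
theorem BU.toSph (e : BU X Y) : Nonempty (sphere (0 : X) 1 ≃ᵤ sphere (0 : Y) 1) := by
  obtain ⟨K, hK, hKb⟩ := e.lf.bound e.f_zero
  obtain ⟨L, hL, hLb⟩ := e.lg.bound e.g_zero
  have hbf : ∀ x, L⁻¹ * ‖x‖ ≤ ‖e.f x‖ := by
    intro x
    have := hLb (e.f x)
    rw [e.gf] at this
    rw [inv_mul_le_iff₀ hL]
    exact this
  have hbg : ∀ y, K⁻¹ * ‖y‖ ≤ ‖e.g y‖ := by
    intro y
    have := hKb (e.g y)
    rw [e.fg] at this
    rw [inv_mul_le_iff₀ hK]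
    exact this
  have hgf : ∀ u : sphere (0 : X) 1, nrm (e.g (nrm (e.f u) (e.f_ne (sph_ne u)) : Y))
      (e.symm.f_ne (sph_ne _)) = u := by
    intro u
    have hu := e.f_ne (sph_ne u)
    have hp : 0 < ‖e.f u‖⁻¹ := inv_pos.2 (norm_pos_iff.2 hu)
    have h1 : e.g (nrm (e.f u) hu : Y) = ‖e.f u‖⁻¹ • (u : X) := by
      show e.g (‖e.f u‖⁻¹ • e.f u) = _
      rw [e.ghom _ hp.le, e.gf]
    have h2 : ‖e.f u‖⁻¹ • (u : X) ≠ 0 := smul_ne_zero hp.ne' (sph_ne u)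
    calc nrm (e.g (nrm (e.f u) hu : Y)) _ = nrm (‖e.f u‖⁻¹ • (u : X)) h2 := by
          congr 1
      _ = nrm (u : X) (sph_ne u) := nrm_smul _ _ _ hp _
      _ = u := nrm_of_sph u _
  have hfg : ∀ v : sphere (0 : Y) 1, nrm (e.f (nrm (e.g v) (e.symm.f_ne (sph_ne v)) : X))
      (e.f_ne (sph_ne _)) = v := by
    intro v
    have hv : e.g v ≠ 0 := e.symm.f_ne (sph_ne v)
    have hp : 0 < ‖e.g v‖⁻¹ := inv_pos.2 (norm_pos_iff.2 hv)
    have h1 : e.f (nrm (e.g v) hv : X) = ‖e.g v‖⁻¹ • (v : Y) := by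
      show e.f (‖e.g v‖⁻¹ • e.g v) = _
      rw [e.hom _ hp.le, e.fg]
    have h2 : ‖e.g v‖⁻¹ • (v : Y) ≠ 0 := smul_ne_zero hp.ne' (sph_ne v)
    calc nrm (e.f (nrm (e.g v) hv : X)) _ = nrm (‖e.g v‖⁻¹ • (v : Y)) h2 := by
          congr 1
      _ = nrm (v : Y) (sph_ne v) := nrm_smul _ _ _ hp _
      _ = v := nrm_of_sph v _
  exact ⟨{
    toFun := fun u => nrm (e.f u) (e.f_ne (sph_ne u))
    invFun := fun v => nrm (e.g v) (e.symm.f_ne (sph_ne v))
    left_inv := hgf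
    right_inv := hfg
    uniformContinuous_toFun := uc_of_LM e.lf (fun x hx => e.f_ne hx) (inv_pos.2 hL) hbf
    uniformContinuous_invFun := uc_of_LM e.lg (fun x hx => e.symm.f_ne hx) (inv_pos.2 hK) hbg }⟩

open Classical in
/-- The norm preserving positively homogeneous extension of a map of spheres. -/
noncomputable def rad (φ : sphere (0 : X) 1 → sphere (0 : Y) 1) (x : X) : Y :=
  if hx : x = 0 then 0 else ‖x‖ • (φ (nrm x hx) : Y)

lemma rad_zero (φ : sphere (0 : X) 1 → sphere (0 : Y) 1) : rad φ 0 = 0 := by simp [rad]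

lemma rad_of_ne (φ : sphere (0 : X) 1 → sphere (0 : Y) 1) {x : X} (hx : x ≠ 0) :
    rad φ x = ‖x‖ • (φ (nrm x hx) : Y) := by simp [rad, hx]

lemma norm_rad (φ : sphere (0 : X) 1 → sphere (0 : Y) 1) (x : X) : ‖rad φ x‖ = ‖x‖ := by
  by_cases hx : x = 0
  · rw [hx, rad_zero, norm_zero, norm_zero]
  · rw [rad_of_ne φ hx, norm_smul, sph_norm, norm_norm, mul_one]

lemma rad_hom (φ : sphere (0 : X) 1 → sphere (0 : Y) 1) (t : ℝ) (ht : 0 ≤ t) (x : X) :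
    rad φ (t • x) = t • rad φ x := by
  rcases ht.eq_or_lt with h | h
  · rw [← h, zero_smul, zero_smul, rad_zero]
  by_cases hx : x = 0
  · rw [hx, smul_zero, rad_zero, smul_zero]
  · have htx : t • x ≠ 0 := smul_ne_zero h.ne' hx
    rw [rad_of_ne φ hx, rad_of_ne φ htx, nrm_smul x hx t h htx, norm_smul, Real.norm_eq_abs,
      abs_of_pos h, smul_smul]

lemma rad_inv (φ : sphere (0 : X) 1 → sphere (0 : Y) 1) (ψ : sphere (0 : Y) 1 → sphere (0 : X) 1)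
    (h : ∀ u, ψ (φ u) = u) (x : X) : rad ψ (rad φ x) = x := by
  by_cases hx : x = 0
  · rw [hx, rad_zero, rad_zero]
  · have h1 : rad φ x ≠ 0 := by
      rw [← norm_pos_iff, norm_rad, norm_pos_iff]; exact hx
    have hxp : 0 < ‖x‖ := norm_pos_iff.2 hx
    rw [rad_of_ne ψ h1, norm_rad]
    have h2 : nrm (rad φ x) h1 = φ (nrm x hx) := by
      apply Subtype.ext
      show ‖rad φ x‖⁻¹ • rad φ x = _
      rw [norm_rad, rad_of_ne φ hx, smul_smul, inv_mul_cancel₀ hxp.ne', one_smul]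
    rw [h2, h]
    show ‖x‖ • (‖x‖⁻¹ • x) = x
    rw [smul_smul, mul_inv_cancel₀ hxp.ne', one_smul]

lemma rad_LM {φ : sphere (0 : X) 1 → sphere (0 : Y) 1} (hφ : UniformContinuous φ) :
    LM (rad φ) := by
  intro ε hε
  rw [Metric.uniformContinuous_iff] at hφ
  obtain ⟨δ, hδ, h⟩ := hφ ε hε
  refine ⟨1 + 4 / δ, by positivity, fun a b => ?_⟩
  have hn := norm_nonneg (a - b)
  have hq : 0 ≤ 4 / δ * ‖a - b‖ := by positivity
  by_cases ha : a = 0
  · rw [ha, rad_zero, zero_sub, norm_neg, norm_rad, zero_sub, norm_neg]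
    have : 0 ≤ ε * (‖(0 : X)‖ + ‖b‖) := by positivity
    have : 0 ≤ 4 / δ * ‖b‖ := by positivity
    linarith
  by_cases hb : b = 0
  · rw [hb, rad_zero, sub_zero, norm_rad, sub_zero]
    have : 0 ≤ ε * (‖a‖ + ‖(0 : X)‖) := by positivity
    have : 0 ≤ 4 / δ * ‖a‖ := by positivity
    linarith
  have hap : 0 < ‖a‖ := norm_pos_iff.2 ha
  have hbp : 0 < ‖b‖ := norm_pos_iff.2 hb
  have key : ‖rad φ a - rad φ b‖ ≤ ‖a - b‖ + ‖a‖ * dist (φ (nrm a ha)) (φ (nrm b hb)) := by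
    rw [rad_of_ne φ ha, rad_of_ne φ hb, Subtype.dist_eq, dist_eq_norm]
    have e : ‖a‖ • (φ (nrm a ha) : Y) - ‖b‖ • (φ (nrm b hb) : Y)
        = ‖a‖ • ((φ (nrm a ha) : Y) - φ (nrm b hb)) + (‖a‖ - ‖b‖) • (φ (nrm b hb) : Y) := by
      rw [smul_sub, sub_smul]; abel
    rw [e]
    refine (norm_add_le _ _).trans ?_
    rw [norm_smul, norm_smul, sph_norm, norm_norm, mul_one, Real.norm_eq_abs]
    have := abs_norm_sub_norm_le a b
    linarith
  have hd2 : dist (φ (nrm a ha)) (φ (nrm b hb)) ≤ 2 := by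
    rw [Subtype.dist_eq, dist_eq_norm]
    refine (norm_sub_le _ _).trans ?_
    rw [sph_norm, sph_norm]; norm_num
  rcases lt_or_ge (2 * ‖a - b‖ / ‖a‖) δ with hlt | hge
  · have h1 := h (lt_of_le_of_lt (nrm_dist a b ha hb) hlt)
    have h2 : ‖a‖ * dist (φ (nrm a ha)) (φ (nrm b hb)) ≤ ‖a‖ * ε :=
      mul_le_mul_of_nonneg_left h1.le hap.le
    have h3 : 0 ≤ ε * ‖b‖ := by positivity
    nlinarith
  · have h1 : δ * ‖a‖ ≤ 2 * ‖a - b‖ := by rwa [le_div_iff₀ hap] at hge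
    have h2 : ‖a‖ * dist (φ (nrm a ha)) (φ (nrm b hb)) ≤ ‖a‖ * 2 :=
      mul_le_mul_of_nonneg_left hd2 hap.le
    have h3 : ‖a‖ * 2 ≤ 4 / δ * ‖a - b‖ := by
      rw [div_mul_eq_mul_div, le_div_iff₀ hδ]; nlinarith
    have h4 : 0 ≤ ε * (‖a‖ + ‖b‖) := by positivity
    nlinarith

/-- From a uniform homeomorphism of the spheres to a norm preserving homogeneous bijection. -/
noncomputable def BU.ofSphere (φ : sphere (0 : X) 1 ≃ᵤ sphere (0 : Y) 1) : BU X Y where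
  f := rad φ
  g := rad φ.symm
  gf := rad_inv φ φ.symm (fun u => φ.symm_apply_apply u)
  fg := rad_inv φ.symm φ (fun u => φ.apply_symm_apply u)
  hom := rad_hom φ
  lf := rad_LM φ.uniformContinuous
  lg := rad_LM φ.symm.uniformContinuous

/-- Every equivalence can be made norm preserving. -/
theorem BU.exists_norm_eq (e : BU X Y) : ∃ e' : BU X Y, ∀ x, ‖e'.f x‖ = ‖x‖ := by
  obtain ⟨φ⟩ := e.toSph
  exact ⟨BU.ofSphere φ, norm_rad φ⟩

end spheres

end Pool.Agent.Helper29.SphU
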