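import Mathlib
import Pool.Agent.Helper29.SphU.Base

/-!
A uniformly convex Banach space is equivalent, by a positively homogeneous bijection which is
uniformly continuous on bounded sets in both directions, to the product of any closed subspace and
its quotient: the lifting of minimal norm is uniformly continuous on bounded sets.
-/

set_option linter.unusedSectionVars false

namespace Pool.Agent.Helper29.SphU

open Metric Filter Topology

variable {X : Type*} [NormedAddCommGroup X] [NormedSpace ℝ X] [UniformConvexSpace X]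
  (U : Submodule ℝ X)

omit [UniformConvexSpace X] in
lemma qnorm_le (x : X) : ‖(U.mkQ x : X ⧸ U)‖ ≤ ‖x‖ := Submodule.Quotient.norm_mk_le U x

/-- The basic estimate: lifts of almost minimal norm are close to each other. -/
lemma uc_key {ε : ℝ} (hε : 0 < ε) : ∃ δ : ℝ, 0 < δ ∧ ∀ a b : X, ∀ M : ℝ, 0 < M → ‖a‖ ≤ M →
    ‖b‖ ≤ M → (2 - δ) * M < ‖U.mkQ (a + b)‖ → ‖a - b‖ < ε * M := by
  obtain ⟨δ, hδ, h⟩ := exists_forall_closed_ball_dist_add_le_two_sub X hε
  refine ⟨δ, hδ, fun a b M hM ha hb hab => ?_⟩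
  by_contra hcon
  rw [not_lt] at hcon
  have h1 : ‖M⁻¹ • a‖ ≤ 1 := by
    rw [norm_smul, norm_inv, Real.norm_eq_abs, abs_of_pos hM, inv_mul_le_iff₀ hM, mul_one]
    exact ha
  have h2 : ‖M⁻¹ • b‖ ≤ 1 := by
    rw [norm_smul, norm_inv, Real.norm_eq_abs, abs_of_pos hM, inv_mul_le_iff₀ hM, mul_one]
    exact hb
  have h3 : ε ≤ ‖M⁻¹ • a - M⁻¹ • b‖ := by
    rw [← smul_sub, norm_smul, norm_inv, Real.norm_eq_abs, abs_of_pos hM, le_inv_mul_iff₀ hM,
      mul_comm]
    exact hcon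
  have h4 := h h1 h2 h3
  rw [← smul_add, norm_smul, norm_inv, Real.norm_eq_abs, abs_of_pos hM, inv_mul_le_iff₀ hM] at h4
  have h5 := qnorm_le U (a + b)
  nlinarith

omit [UniformConvexSpace X] in
lemma qnorm_two (z w : X ⧸ U) : 2 * ‖z‖ - ‖z - w‖ ≤ ‖z + w‖ := by
  have h : (2 : ℝ) • z = (z + w) + (z - w) := by rw [two_smul]; abel
  have h1 : ‖(2 : ℝ) • z‖ = 2 * ‖z‖ := by rw [norm_smul]; norm_num
  rw [← h1, h]
  linarith [norm_add_le (z + w) (z - w)]

variable [CompleteSpace X] [hU : IsClosed (U : Set X)]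

/-- Existence of a lift of minimal norm. -/
lemma exists_lift (z : X ⧸ U) : ∃ x : X, U.mkQ x = z ∧ ‖x‖ = ‖z‖ := by
  rcases eq_or_ne z 0 with hz | hz
  · exact ⟨0, by rw [hz, map_zero], by rw [hz, norm_zero, norm_zero]⟩
  have hzp : 0 < ‖z‖ := norm_pos_iff.2 hz
  have hx : ∀ n : ℕ, ∃ m : X, U.mkQ m = z ∧ ‖m‖ < ‖z‖ + 1 / ((n : ℝ) + 1) := fun n =>
    Submodule.Quotient.norm_mk_lt z (by positivity)
  choose x hxz hxn using hx
  have hlow : ∀ n, ‖z‖ ≤ ‖x n‖ := by
    intro n; rw [← hxz n]; exact qnorm_le U (x n)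
  have hlim : Tendsto (fun n : ℕ => ‖z‖ + 1 / ((n : ℝ) + 1)) atTop (𝓝 ‖z‖) := by
    have := tendsto_one_div_add_atTop_nhds_zero_nat (𝕜 := ℝ)
    simpa using this.const_add ‖z‖
  have hcau : CauchySeq x := by
    rw [Metric.cauchySeq_iff']
    intro ε hε
    obtain ⟨δ, hδ, h⟩ := uc_key U (ε := ε / (2 * ‖z‖)) (by positivity)
    have hMlt : ‖z‖ < ‖z‖ * (2 / (2 - min δ 1)) := by
      have hm : 0 < min δ 1 := lt_min hδ one_pos
      have hm1 : min δ 1 ≤ 1 := min_le_right _ _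
      have : 1 < 2 / (2 - min δ 1) := by rw [lt_div_iff₀ (by linarith)]; linarith
      nlinarith
    have hMlt2 : ‖z‖ < min (‖z‖ * (2 / (2 - min δ 1))) (2 * ‖z‖) := lt_min hMlt (by linarith)
    obtain ⟨N, hN⟩ := (hlim.eventually (gt_mem_nhds hMlt2)).exists
    refine ⟨N, fun n hn => ?_⟩
    set M := ‖z‖ + 1 / ((N : ℝ) + 1) with hM
    have hMpos : 0 < M := by positivity
    have hNM : ‖x N‖ ≤ M := (hxn N).le
    have hnM : ‖x n‖ ≤ M := by
      refine (hxn n).le.trans ?_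
      have : 1 / ((n : ℝ) + 1) ≤ 1 / ((N : ℝ) + 1) :=
        one_div_le_one_div_of_le (by positivity) (by exact_mod_cast Nat.succ_le_succ hn)
      linarith
    have hsum : U.mkQ (x n + x N) = (2 : ℝ) • z := by rw [map_add, hxz, hxz, two_smul]
    have hgt : (2 - δ) * M < ‖U.mkQ (x n + x N)‖ := by
      rw [hsum, norm_smul, Real.norm_eq_abs, abs_two]
      have h1 : M < ‖z‖ * (2 / (2 - min δ 1)) := lt_of_lt_of_le hN (min_le_left _ _)
      have hm1 : min δ 1 ≤ 1 := min_le_right _ _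
      have hmδ : min δ 1 ≤ δ := min_le_left _ _
      have h2 : M * (2 - min δ 1) < ‖z‖ * 2 := by
        rw [← mul_div_assoc, lt_div_iff₀ (by linarith)] at h1
        exact h1
      nlinarith
    have := h (x n) (x N) M hMpos hnM hNM hgt
    rw [dist_eq_norm]
    have hM2 : M < 2 * ‖z‖ := lt_of_lt_of_le hN (min_le_right _ _)
    calc ‖x n - x N‖ < ε / (2 * ‖z‖) * M := this
      _ ≤ ε / (2 * ‖z‖) * (2 * ‖z‖) := mul_le_mul_of_nonneg_left hM2.le (by positivity)
      _ = ε := by field_simp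
  obtain ⟨y, hy⟩ := cauchySeq_tendsto_of_complete hcau
  refine ⟨y, ?_, ?_⟩
  · have hc : Continuous (fun x : X => (U.mkQ x : X ⧸ U)) := U.mkQL.continuous
    have h1 : Tendsto (fun n => (U.mkQ (x n) : X ⧸ U)) atTop (𝓝 (U.mkQ y)) :=
      (hc.tendsto y).comp hy
    simp only [hxz] at h1
    exact (tendsto_nhds_unique h1 tendsto_const_nhds)
  · have h1 : Tendsto (fun n => ‖x n‖) atTop (𝓝 ‖y‖) := hy.norm
    have h2 : Tendsto (fun n => ‖x n‖) atTop (𝓝 ‖z‖) :=
      tendsto_of_tendsto_of_tendsto_of_le_of_le tendsto_const_nhds hlim hlow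
        (fun n => (hxn n).le)
    exact tendsto_nhds_unique h1 h2

/-- The lift of minimal norm. -/
noncomputable def lift (z : X ⧸ U) : X := (exists_lift U z).choose

lemma mkQ_lift (z : X ⧸ U) : U.mkQ (lift U z) = z := (exists_lift U z).choose_spec.1

lemma norm_lift (z : X ⧸ U) : ‖lift U z‖ = ‖z‖ := (exists_lift U z).choose_spec.2

/-- Lifts of minimal norm of nearby classes are close. -/
lemma lift_close {ε : ℝ} (hε : 0 < ε) : ∃ C : ℝ, 0 ≤ C ∧ ∀ (z w : X ⧸ U) (a b : X),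
    U.mkQ a = z → ‖a‖ = ‖z‖ → U.mkQ b = w → ‖b‖ = ‖w‖ →
    ‖a - b‖ ≤ ε * (‖z‖ + ‖w‖) + C * ‖z - w‖ := by
  obtain ⟨δ, hδ, h⟩ := uc_key U hε
  refine ⟨2 / δ, by positivity, fun z w a b ha ha' hb hb' => ?_⟩
  set M := max ‖z‖ ‖w‖ with hM
  have hzM : ‖z‖ ≤ M := le_max_left _ _
  have hwM : ‖w‖ ≤ M := le_max_right _ _
  have hMs : M ≤ ‖z‖ + ‖w‖ := max_le (by linarith [norm_nonneg w]) (by linarith [norm_nonneg z])
  have hq : 0 ≤ 2 / δ * ‖z - w‖ := by positivity
  rcases (le_trans (norm_nonneg z) hzM).eq_or_lt with h0 | hMp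
  · have : ‖a - b‖ ≤ 0 := by
      refine (norm_sub_le _ _).trans ?_
      rw [ha', hb']
      linarith [norm_nonneg z, norm_nonneg w]
    have : 0 ≤ ε * (‖z‖ + ‖w‖) := by positivity
    linarith
  rcases lt_or_ge ((2 - δ) * M) ‖U.mkQ (a + b)‖ with hlt | hge
  · have := h a b M hMp (by rw [ha']; exact hzM) (by rw [hb']; exact hwM) hlt
    have : ε * M ≤ ε * (‖z‖ + ‖w‖) := mul_le_mul_of_nonneg_left hMs hε.le
    linarith
  · have h1 : 2 * M - ‖z - w‖ ≤ ‖z + w‖ := by
      rcases max_choice ‖z‖ ‖w‖ with hh | hh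
      · rw [hM, hh]; exact qnorm_two U z w
      · rw [hM, hh, norm_sub_rev, add_comm z w]; exact qnorm_two U w z
    rw [map_add, ha, hb] at hge
    have h2 : δ * M ≤ ‖z - w‖ := by linarith
    have h3 : ‖a - b‖ ≤ 2 * M := by
      refine (norm_sub_le _ _).trans ?_
      rw [ha', hb']; linarith
    have h4 : 2 * M ≤ 2 / δ * ‖z - w‖ := by
      rw [div_mul_eq_mul_div, le_div_iff₀ hδ]; linarith
    have : 0 ≤ ε * (‖z‖ + ‖w‖) := by positivity
    linarith

lemma lift_unique (z : X ⧸ U) (a b : X) (ha : U.mkQ a = z) (ha' : ‖a‖ = ‖z‖)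
    (hb : U.mkQ b = z) (hb' : ‖b‖ = ‖z‖) : a = b := by
  rw [← sub_eq_zero, ← norm_le_zero_iff]
  refine le_of_forall_pos_le_add fun η hη => ?_
  obtain ⟨C, -, h⟩ := lift_close U (ε := η / (2 * ‖z‖ + 1)) (by positivity)
  have := h z z a b ha ha' hb hb'
  rw [sub_self, norm_zero, mul_zero, add_zero] at this
  rw [zero_add]
  refine this.trans ?_
  rw [div_mul_eq_mul_div, div_le_iff₀ (by positivity)]
  nlinarith [norm_nonneg z]

lemma lift_hom (t : ℝ) (z : X ⧸ U) : lift U (t • z) = t • lift U z := by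
  refine lift_unique U (t • z) _ _ (mkQ_lift U _) (norm_lift U _) ?_ ?_
  · rw [map_smul, mkQ_lift]
  · rw [norm_smul, norm_lift, norm_smul]

lemma lift_LM : LM (lift U) := by
  intro ε hε
  obtain ⟨C, hC, h⟩ := lift_close U hε
  exact ⟨C, hC, fun z w => h z w _ _ (mkQ_lift U z) (norm_lift U z) (mkQ_lift U w) (norm_lift U w)⟩

omit [UniformConvexSpace X] [CompleteSpace X] hU in
lemma LM_subtype_val : LM (fun u : U => (u : X)) :=
  LM.of_linear (fun _ _ => rfl) zero_le_one (fun a => by rw [one_mul]; exact le_rfl)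

lemma LM_mkQ : LM (fun x : X => (U.mkQ x : X ⧸ U)) :=
  LM.of_linear (fun a b => (map_sub U.mkQ a b).symm) zero_le_one
    (fun a => by rw [one_mul]; exact qnorm_le U a)

omit [CompleteSpace X] hU [UniformConvexSpace X] in
lemma mem_iff_mkQ (x : X) : x ∈ U ↔ U.mkQ x = 0 := (Submodule.Quotient.mk_eq_zero U).symm

/-- The nonlinear splitting of a uniformly convex space. -/
noncomputable def split : BU X (U × (X ⧸ U)) where
  f x := (⟨x - lift U (U.mkQ x), (mem_iff_mkQ U _).2 (by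
    rw [map_sub, mkQ_lift, sub_self])⟩, U.mkQ x)
  g p := (p.1 : X) + lift U p.2
  gf x := by simp
  fg p := by
    have h : U.mkQ ((p.1 : X) + lift U p.2) = p.2 := by
      rw [map_add, mkQ_lift]
      have : U.mkQ (p.1 : X) = 0 := (mem_iff_mkQ U _).1 p.1.2
      rw [this, zero_add]
    refine Prod.ext (Subtype.ext ?_) h
    show (p.1 : X) + lift U p.2 - lift U (U.mkQ ((p.1 : X) + lift U p.2)) = p.1
    rw [h, add_sub_cancel_right]
  hom t ht x := by
    refine Prod.ext (Subtype.ext ?_) ?_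
    · show t • x - lift U (U.mkQ (t • x)) = t • (x - lift U (U.mkQ x))
      rw [map_smul, lift_hom U t, smul_sub]
    · show U.mkQ (t • x) = t • U.mkQ x
      rw [map_smul]
  lf := by
    refine LM.prod ?_ (LM_mkQ U)
    have h1 : LM (fun x : X => lift U (U.mkQ x)) :=
      (lift_LM U).comp (LM_mkQ U) (map_zero _)
    have h2 : LM (fun x : X => x + - lift U (U.mkQ x)) := LM.id.add h1.neg
    intro ε hε
    obtain ⟨C, hC, h⟩ := h2 ε hε
    refine ⟨C, hC, fun a b => ?_⟩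
    have := h a b
    simp only [← sub_eq_add_neg] at this
    exact this
  lg := by
    have h1 : LM (fun p : U × (X ⧸ U) => (p.1 : X)) := (LM_subtype_val U).comp BU.lm_fst rfl
    have h2 : LM (fun p : U × (X ⧸ U) => lift U p.2) := (lift_LM U).comp BU.lm_snd rfl
    exact h1.add h2

/-- The quotient of a uniformly convex Banach space is uniformly convex. -/
lemma quot_uc : UniformConvexSpace (X ⧸ U) := by
  refine ⟨fun ε hε => ?_⟩
  obtain ⟨δ, hδ, h⟩ := exists_forall_sphere_dist_add_le_two_sub X hε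
  refine ⟨δ, hδ, fun z hz w hw hzw => ?_⟩
  have h1 : ‖lift U z‖ = 1 := by rw [norm_lift, hz]
  have h2 : ‖lift U w‖ = 1 := by rw [norm_lift, hw]
  have h3 : ε ≤ ‖lift U z - lift U w‖ := by
    refine hzw.trans ?_
    have := qnorm_le U (lift U z - lift U w)
    rwa [map_sub, mkQ_lift, mkQ_lift] at this
  refine le_trans ?_ (h h1 h2 h3)
  have := qnorm_le U (lift U z + lift U w)
  rwa [map_add, mkQ_lift, mkQ_lift] at this

/-- A subspace of a uniformly convex space is uniformly convex. -/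
lemma sub_uc {X : Type*} [NormedAddCommGroup X] [NormedSpace ℝ X] [UniformConvexSpace X]
    (U : Submodule ℝ X) : UniformConvexSpace U := by
  refine ⟨fun ε hε => ?_⟩
  obtain ⟨δ, hδ, h⟩ := exists_forall_sphere_dist_add_le_two_sub X hε
  refine ⟨δ, hδ, fun z hz w hw hzw => ?_⟩
  exact h (x := (z : X)) hz (y := (w : X)) hw hzw

end Pool.Agent.Helper29.SphU
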