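import Mathlib
import Pool.Agent.Helper29.SphU.Quot

/-!
Ultrapowers of Banach spaces.
-/

universe u

set_option linter.unusedSectionVars false

namespace Pool.Agent.Helper29.SphU

open Metric Filter Topology ENNReal

section

variable {I : Type u} (U : Ultrafilter I)

/-- Bounded families. -/
abbrev BSeq (I : Type u) (X : Type u) [NormedAddCommGroup X] := lp (fun _ : I => X) ∞

variable {X : Type u} [NormedAddCommGroup X] [NormedSpace ℝ X]

/-- A bounded family. -/
def mkB (x : I → X) (C : ℝ) (h : ∀ i, ‖x i‖ ≤ C) : BSeq I X :=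
  ⟨x, memℓp_infty ⟨C, by rintro _ ⟨i, rfl⟩; exact h i⟩⟩

lemma mkB_apply (x : I → X) (C : ℝ) (h : ∀ i, ‖x i‖ ≤ C) (i : I) : mkB x C h i = x i := rfl

lemma norm_mkB_le (x : I → X) (C : ℝ) (h : ∀ i, ‖x i‖ ≤ C) (hC : 0 ≤ C) : ‖mkB x C h‖ ≤ C :=
  lp.norm_le_of_forall_le hC h

lemma norm_at_le (x : BSeq I X) (i : I) : ‖x i‖ ≤ ‖x‖ := lp.norm_apply_le_norm top_ne_zero x i

variable (X) in
/-- Families which tend to zero along the ultrafilter. -/
def nullU : Submodule ℝ (BSeq I X) where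
  carrier := {x | Tendsto (fun i => ‖x i‖) U (𝓝 0)}
  add_mem' := by
    intro a b ha hb
    simp only [Set.mem_ofPred_eq] at *
    refine squeeze_zero (fun i => norm_nonneg _) (fun i => ?_) (by simpa using ha.add hb)
    exact norm_add_le (a i) (b i)
  zero_mem' := by
    simp only [Set.mem_ofPred_eq]
    have : (fun i => ‖(0 : BSeq I X) i‖) = fun _ => (0 : ℝ) := by
      funext i; simp
    rw [this]; exact tendsto_const_nhds
  smul_mem' := by
    intro c x hx
    simp only [Set.mem_ofPred_eq] at *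
    have : (fun i => ‖(c • x) i‖) = fun i => ‖c‖ * ‖x i‖ := by
      funext i; rw [lp.coeFn_smul, Pi.smul_apply, norm_smul]
    rw [this]
    simpa using hx.const_mul ‖c‖

lemma mem_nullU (x : BSeq I X) : x ∈ nullU U X ↔ Tendsto (fun i => ‖x i‖) U (𝓝 0) := Iff.rfl

lemma mem_nullU_of_eventually (x : BSeq I X) (h : ∀ᶠ i in (U : Filter I), x i = 0) :
    x ∈ nullU U X := by
  rw [mem_nullU]
  refine Tendsto.congr' (f₁ := fun _ => (0 : ℝ)) ?_ tendsto_const_nhds
  filter_upwards [h] with i hi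
  rw [hi, norm_zero]

instance nullU_closed : IsClosed (nullU U X : Set (BSeq I X)) := by
  refine isClosed_of_closure_subset fun x hx => ?_
  rw [Metric.mem_closure_iff] at hx
  show x ∈ nullU U X
  rw [mem_nullU, Metric.tendsto_nhds]
  intro ε hε
  obtain ⟨y, hy, hxy⟩ := hx (ε / 2) (by positivity)
  have hy' : Tendsto (fun i => ‖y i‖) U (𝓝 0) := hy
  have h1 := (Metric.tendsto_nhds.1 hy') (ε / 2) (by positivity)
  filter_upwards [h1] with i hi
  rw [Real.dist_0_eq_abs, abs_norm] at hi ⊢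
  rw [dist_eq_norm] at hxy
  have h2 : ‖x i - y i‖ ≤ ‖x - y‖ := norm_at_le (x - y) i
  have h3 : ‖x i‖ ≤ ‖x i - y i‖ + ‖y i‖ := by
    have := norm_add_le (x i - y i) (y i)
    rwa [sub_add_cancel] at this
  linarith

variable (X) in
/-- The ultrapower. -/
abbrev UP := BSeq I X ⧸ nullU U X

/-- The class of a bounded family. -/
noncomputable def cl (x : BSeq I X) : UP U X := Submodule.Quotient.mk x

lemma cl_surj (z : UP U X) : ∃ x, cl U x = z := Submodule.Quotient.mk_surjective _ z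

lemma cl_sub (x y : BSeq I X) : cl U x - cl U y = cl U (x - y) :=
  (Submodule.Quotient.mk_sub _).symm

lemma cl_add (x y : BSeq I X) : cl U x + cl U y = cl U (x + y) :=
  (Submodule.Quotient.mk_add _).symm

lemma cl_smul (c : ℝ) (x : BSeq I X) : c • cl U x = cl U (c • x) :=
  (Submodule.Quotient.mk_smul _ c x).symm

lemma cl_norm_le (x : BSeq I X) : ‖cl U x‖ ≤ ‖x‖ := Submodule.Quotient.norm_mk_le _ x

lemma cl_exists (z : UP U X) {ε : ℝ} (hε : 0 < ε) : ∃ m : BSeq I X, cl U m = z ∧ ‖m‖ < ‖z‖ + ε :=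
  Submodule.Quotient.norm_mk_lt z hε

lemma cl_eq_iff (x y : BSeq I X) :
    cl U x = cl U y ↔ Tendsto (fun i => ‖x i - y i‖) U (𝓝 0) := by
  rw [← sub_eq_zero, cl_sub]
  exact (Submodule.Quotient.mk_eq_zero _).trans Iff.rfl

lemma exists_lim (x : BSeq I X) : ∃ L, Tendsto (fun i => ‖x i‖) U (𝓝 L) := by
  have hc : IsCompact (Set.Icc (0 : ℝ) ‖x‖) := isCompact_Icc
  have h : (U.map (fun i => ‖x i‖) : Filter ℝ) ≤ 𝓟 (Set.Icc (0 : ℝ) ‖x‖) := by
    rw [Ultrafilter.coe_map, le_principal_iff, mem_map]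
    exact Filter.univ_mem' fun i => ⟨norm_nonneg _, norm_at_le x i⟩
  obtain ⟨L, -, hL⟩ := hc.ultrafilter_le_nhds _ h
  exact ⟨L, hL⟩

lemma tendsto_norm_cl (x : BSeq I X) : Tendsto (fun i => ‖x i‖) U (𝓝 ‖cl U x‖) := by
  obtain ⟨L, hL⟩ := exists_lim U x
  have hL0 : 0 ≤ L := ge_of_tendsto' hL fun i => norm_nonneg _
  suffices h : ‖cl U x‖ = L by rw [h]; exact hL
  refine le_antisymm ?_ ?_
  · refine le_of_forall_pos_le_add fun ε hε => ?_
    classical
    let y : BSeq I X := mkB (fun i => if ‖x i‖ < L + ε then x i else 0) (L + ε) (fun i => by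
      split_ifs with h
      · exact h.le
      · rw [norm_zero]; positivity)
    have hy : cl U x = cl U y := by
      rw [cl_eq_iff]
      refine Tendsto.congr' (f₁ := fun _ => (0 : ℝ)) ?_ tendsto_const_nhds
      filter_upwards [hL.eventually (gt_mem_nhds (by linarith : L < L + ε))] with i hi
      have : y i = x i := if_pos hi
      rw [this, sub_self, norm_zero]
    rw [hy]
    exact (cl_norm_le U y).trans (norm_mkB_le _ _ _ (by positivity))
  · refine le_of_forall_pos_le_add fun ε hε => ?_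
    obtain ⟨m, hm, hmn⟩ := cl_exists U (cl U x) hε
    have h1 : Tendsto (fun i => ‖x i - m i‖) U (𝓝 0) := (cl_eq_iff U x m).1 hm.symm
    have h2 : ∀ i, ‖x i‖ ≤ ‖x i - m i‖ + ‖m‖ := by
      intro i
      have := norm_add_le (x i - m i) (m i)
      rw [sub_add_cancel] at this
      linarith [norm_at_le m i]
    have h3 : L ≤ 0 + ‖m‖ := le_of_tendsto_of_tendsto' hL (h1.add_const ‖m‖) h2
    linarith

/-- Ultrapowers of uniformly convex spaces are uniformly convex. -/
lemma up_uc [UniformConvexSpace X] : UniformConvexSpace (UP U X) := by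
  refine ⟨fun ε hε => ?_⟩
  obtain ⟨δ, hδ, h⟩ := exists_forall_closed_ball_dist_add_le_two_sub X
    (show 0 < ε / 4 by positivity)
  refine ⟨δ, hδ, fun z hz w hw hzw => ?_⟩
  obtain ⟨x, rfl⟩ := cl_surj U z
  obtain ⟨y, rfl⟩ := cl_surj U w
  have hx := tendsto_norm_cl U x
  have hy := tendsto_norm_cl U y
  have hxy := tendsto_norm_cl U (x - y)
  have hxy' := tendsto_norm_cl U (x + y)
  rw [hz] at hx
  rw [hw] at hy
  rw [← cl_sub] at hxy
  rw [← cl_add] at hxy'
  have key : ∀ η : ℝ, 0 < η → η ≤ 1 → ‖cl U x + cl U y‖ ≤ (1 + η) * (2 - δ) := by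
    intro η hη hη1
    refine le_of_tendsto hxy' ?_
    filter_upwards [hx.eventually (gt_mem_nhds (by linarith : (1 : ℝ) < 1 + η)),
      hy.eventually (gt_mem_nhds (by linarith : (1 : ℝ) < 1 + η)),
      hxy.eventually (lt_mem_nhds (by linarith : ε / 2 < ‖cl U x - cl U y‖))] with i h1 h2 h3
    have hp : 0 < 1 + η := by linarith
    have e1 : ‖(1 + η)⁻¹ • x i‖ ≤ 1 := by
      rw [norm_smul, norm_inv, Real.norm_eq_abs, abs_of_pos hp, inv_mul_le_iff₀ hp, mul_one]
      exact h1.le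
    have e2 : ‖(1 + η)⁻¹ • y i‖ ≤ 1 := by
      rw [norm_smul, norm_inv, Real.norm_eq_abs, abs_of_pos hp, inv_mul_le_iff₀ hp, mul_one]
      exact h2.le
    have e3 : ε / 4 ≤ ‖(1 + η)⁻¹ • x i - (1 + η)⁻¹ • y i‖ := by
      rw [← smul_sub, norm_smul, norm_inv, Real.norm_eq_abs, abs_of_pos hp, le_inv_mul_iff₀ hp]
      have : ‖x i - y i‖ = ‖(x - y) i‖ := rfl
      rw [this]
      nlinarith
    have e4 := h e1 e2 e3
    rw [← smul_add, norm_smul, norm_inv, Real.norm_eq_abs, abs_of_pos hp,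
      inv_mul_le_iff₀ hp] at e4
    exact e4
  by_contra hcon
  rw [not_le] at hcon
  set N := ‖cl U x + cl U y‖ with hN
  have hN2 : N ≤ 2 := (norm_add_le _ _).trans (by rw [hz, hw]; norm_num)
  have hη : 0 < min 1 ((N - (2 - δ)) / 3) := lt_min one_pos (by linarith)
  have h1 := key _ hη (min_le_left _ _)
  have h2 : min 1 ((N - (2 - δ)) / 3) ≤ (N - (2 - δ)) / 3 := min_le_right _ _
  have h3 : (2 - δ) ≤ 2 := by linarith
  have h4 : min 1 ((N - (2 - δ)) / 3) * (2 - δ) ≤ min 1 ((N - (2 - δ)) / 3) * 2 :=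
    mul_le_mul_of_nonneg_left h3 hη.le
  linarith

end

end Pool.Agent.Helper29.SphU
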