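import Mathlib
import Pool.Agent.Helper29.SphU.Ultra

/-!
Ultrapowers: functoriality for positively homogeneous maps, products, Hilbert spaces, embeddings of
finitely representable spaces.
-/

universe u

set_option linter.unusedSectionVars false

namespace Pool.Agent.Helper29.SphU

open Metric Filter Topology ENNReal

section

variable {I : Type u} (U : Ultrafilter I)
variable {X Y Z : Type u} [NormedAddCommGroup X] [NormedSpace ℝ X] [NormedAddCommGroup Y]
  [NormedSpace ℝ Y] [NormedAddCommGroup Z] [NormedSpace ℝ Z]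

/-- A representative. -/
noncomputable def rep (z : UP U X) : BSeq I X := (cl_surj U z).choose

lemma cl_rep (z : UP U X) : cl U (rep U z) = z := (cl_surj U z).choose_spec

/-- A bound of a map on the values of a family. -/
lemma map_bdd {f : X → Y} (hf : LM f) (h0 : f 0 = 0) (x : BSeq I X) (i : I) :
    ‖f (x i)‖ ≤ (hf.bound h0).choose * ‖x‖ := by
  obtain ⟨h1, h2⟩ := (hf.bound h0).choose_spec
  exact (h2 (x i)).trans (mul_le_mul_of_nonneg_left (norm_at_le x i) h1.le)

/-- Apply a map coordinatewise. -/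
noncomputable def mapB {f : X → Y} (hf : LM f) (h0 : f 0 = 0) (x : BSeq I X) : BSeq I Y :=
  mkB (fun i => f (x i)) _ (map_bdd hf h0 x)

lemma mapB_apply {f : X → Y} (hf : LM f) (h0 : f 0 = 0) (x : BSeq I X) (i : I) :
    mapB hf h0 x i = f (x i) := rfl

lemma cl_mapB_dist {f : X → Y} (hf : LM f) (h0 : f 0 = 0) {ε C : ℝ}
    (h : ∀ a b : X, ‖f a - f b‖ ≤ ε * (‖a‖ + ‖b‖) + C * ‖a - b‖) (x y : BSeq I X) :
    ‖cl U (mapB hf h0 x) - cl U (mapB hf h0 y)‖
      ≤ ε * (‖cl U x‖ + ‖cl U y‖) + C * ‖cl U x - cl U y‖ := by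
  rw [cl_sub, cl_sub]
  refine le_of_tendsto_of_tendsto' (tendsto_norm_cl U _)
    ((((tendsto_norm_cl U x).add (tendsto_norm_cl U y)).const_mul ε).add
      ((tendsto_norm_cl U (x - y)).const_mul C)) fun i => ?_
  exact h (x i) (y i)

lemma cl_mapB_congr {f : X → Y} (hf : LM f) (h0 : f 0 = 0) {x y : BSeq I X}
    (h : cl U x = cl U y) : cl U (mapB hf h0 x) = cl U (mapB hf h0 y) := by
  rw [← sub_eq_zero, ← norm_le_zero_iff]
  refine le_of_forall_pos_le_add fun η hη => ?_
  obtain ⟨C, -, hC⟩ := hf (η / (‖cl U x‖ + ‖cl U y‖ + 1)) (by positivity)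
  have := cl_mapB_dist U hf h0 hC x y
  rw [h, sub_self, norm_zero, mul_zero, add_zero] at this
  rw [zero_add]
  rw [h] at *
  refine this.trans ?_
  rw [div_mul_eq_mul_div, div_le_iff₀ (by positivity)]
  nlinarith [norm_nonneg (cl U y)]

/-- The map between the ultrapowers. -/
noncomputable def upMap {f : X → Y} (hf : LM f) (h0 : f 0 = 0) (z : UP U X) : UP U Y :=
  cl U (mapB hf h0 (rep U z))

lemma upMap_cl {f : X → Y} (hf : LM f) (h0 : f 0 = 0) (x : BSeq I X) :
    upMap U hf h0 (cl U x) = cl U (mapB hf h0 x) :=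
  cl_mapB_congr U hf h0 (cl_rep U _)

lemma upMap_LM {f : X → Y} (hf : LM f) (h0 : f 0 = 0) : LM (upMap U hf h0) := by
  intro ε hε
  obtain ⟨C, hC, h⟩ := hf ε hε
  refine ⟨C, hC, fun a b => ?_⟩
  obtain ⟨x, rfl⟩ := cl_surj U a
  obtain ⟨y, rfl⟩ := cl_surj U b
  rw [upMap_cl, upMap_cl]
  exact cl_mapB_dist U hf h0 h x y

/-- Functoriality of the ultrapower. -/
noncomputable def BU.up (e : BU X Y) : BU (UP U X) (UP U Y) where
  f := upMap U e.lf e.f_zero
  g := upMap U e.lg e.g_zero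
  gf z := by
    obtain ⟨x, rfl⟩ := cl_surj U z
    rw [upMap_cl, upMap_cl]
    congr 1
    ext i
    exact e.gf (x i)
  fg z := by
    obtain ⟨x, rfl⟩ := cl_surj U z
    rw [upMap_cl, upMap_cl]
    congr 1
    ext i
    exact e.fg (x i)
  hom t ht z := by
    obtain ⟨x, rfl⟩ := cl_surj U z
    rw [cl_smul, upMap_cl, upMap_cl, cl_smul]
    congr 1
    ext i
    exact e.hom t ht (x i)
  lf := upMap_LM U _ _
  lg := upMap_LM U _ _

lemma pair_bdd (x : BSeq I X) (y : BSeq I Y) (i : I) : ‖(x i, y i)‖ ≤ ‖x‖ + ‖y‖ := by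
  rw [Prod.norm_def]
  have h1 := norm_at_le x i
  have h2 := norm_at_le y i
  exact max_le (by linarith [norm_nonneg y]) (by linarith [norm_nonneg x])

/-- Pair two families. -/
noncomputable def pairB (x : BSeq I X) (y : BSeq I Y) : BSeq I (X × Y) :=
  mkB (fun i => (x i, y i)) _ (pair_bdd x y)

lemma norm_cl_pair (x : BSeq I X) (y : BSeq I Y) :
    ‖cl U (pairB x y)‖ = max ‖cl U x‖ ‖cl U y‖ := by
  refine tendsto_nhds_unique (tendsto_norm_cl U _) ?_
  have := (tendsto_norm_cl U x).max (tendsto_norm_cl U y)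
  exact this

lemma cl_pair_sub (x x' : BSeq I X) (y y' : BSeq I Y) :
    cl U (pairB x y) - cl U (pairB x' y') = cl U (pairB (x - x') (y - y')) := by
  rw [cl_sub]
  congr 1

lemma cl_pair_congr {x x' : BSeq I X} {y y' : BSeq I Y} (hx : cl U x = cl U x')
    (hy : cl U y = cl U y') : cl U (pairB x y) = cl U (pairB x' y') := by
  rw [← sub_eq_zero, cl_pair_sub, ← norm_eq_zero, norm_cl_pair, ← cl_sub, ← cl_sub, hx, hy,
    sub_self, sub_self, norm_zero, norm_zero, max_self]

/-- The ultrapower of a product. -/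
noncomputable def upProd (X Y : Type u) [NormedAddCommGroup X] [NormedSpace ℝ X]
    [NormedAddCommGroup Y] [NormedSpace ℝ Y] : BU (UP U (X × Y)) (UP U X × UP U Y) where
  f z := (upMap U BU.lm_fst rfl z, upMap U BU.lm_snd rfl z)
  g p := cl U (pairB (rep U p.1) (rep U p.2))
  gf z := by
    obtain ⟨x, rfl⟩ := cl_surj U z
    rw [upMap_cl, upMap_cl]
    have h1 : cl U (pairB (mapB BU.lm_fst rfl x) (mapB BU.lm_snd rfl x)) = cl U x := by
      congr 1
    rw [← h1]
    exact cl_pair_congr U (cl_rep U _) (cl_rep U _)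
  fg p := by
    obtain ⟨a, b⟩ := p
    obtain ⟨x, rfl⟩ := cl_surj U a
    obtain ⟨y, rfl⟩ := cl_surj U b
    have h1 : cl U (pairB (rep U (cl U x)) (rep U (cl U y))) = cl U (pairB x y) :=
      cl_pair_congr U (cl_rep U _) (cl_rep U _)
    simp only
    rw [h1, upMap_cl, upMap_cl]
    rfl
  hom t _ z := by
    obtain ⟨x, rfl⟩ := cl_surj U z
    rw [cl_smul, upMap_cl, upMap_cl, upMap_cl, upMap_cl]
    refine Prod.ext ?_ ?_
    · show cl U _ = t • cl U _
      rw [cl_smul]; rfl
    · show cl U _ = t • cl U _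
      rw [cl_smul]; rfl
  lf := LM.prod (upMap_LM U _ _) (upMap_LM U _ _)
  lg := by
    intro ε hε
    refine ⟨1, zero_le_one, fun a b => ?_⟩
    have h1 : ‖cl U (pairB (rep U a.1) (rep U a.2)) - cl U (pairB (rep U b.1) (rep U b.2))‖
        = ‖a - b‖ := by
      rw [cl_pair_sub, norm_cl_pair, ← cl_sub, ← cl_sub, cl_rep, cl_rep, cl_rep, cl_rep]
      rfl
    rw [h1]
    have : 0 ≤ ε * (‖a‖ + ‖b‖) := by positivity
    linarith

/-- Constant families. -/
noncomputable def constB (x : X) : BSeq I X := mkB (fun _ => x) ‖x‖ (fun _ => le_rfl)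

variable (X) in
/-- The diagonal embedding. -/
noncomputable def diag : X →ₗᵢ[ℝ] UP U X where
  toFun x := cl U (constB x)
  map_add' x y := by
    rw [cl_add]; congr 1
  map_smul' t x := by
    rw [RingHom.id_apply, cl_smul]; congr 1
  norm_map' x := tendsto_nhds_unique (tendsto_norm_cl U (constB x)) tendsto_const_nhds

end

section hilbert

variable {I : Type u} (U : Ultrafilter I)
variable {H : Type u} [NormedAddCommGroup H] [InnerProductSpace ℝ H]

lemma up_parallelogram (z w : UP U H) :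
    ‖z + w‖ * ‖z + w‖ + ‖z - w‖ * ‖z - w‖ = 2 * (‖z‖ * ‖z‖ + ‖w‖ * ‖w‖) := by
  obtain ⟨x, rfl⟩ := cl_surj U z
  obtain ⟨y, rfl⟩ := cl_surj U w
  have h1 := tendsto_norm_cl U (x + y)
  have h2 := tendsto_norm_cl U (x - y)
  have h3 := tendsto_norm_cl U x
  have h4 := tendsto_norm_cl U y
  rw [cl_add, cl_sub]
  have h5 := (h1.mul h1).add (h2.mul h2)
  have h6 := ((h3.mul h3).add (h4.mul h4)).const_mul 2
  refine tendsto_nhds_unique h5 (h6.congr fun i => ?_)
  have h := parallelogram_law_with_norm ℝ (x i) (y i)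
  show 2 * (‖x i‖ * ‖x i‖ + ‖y i‖ * ‖y i‖) = ‖x i + y i‖ * ‖x i + y i‖ + ‖x i - y i‖ * ‖x i - y i‖
  linarith

/-- The ultrapower of a Hilbert space is a Hilbert space. -/
@[instance_reducible] noncomputable def upInner : InnerProductSpace ℝ (UP U H) :=
  InnerProductSpace.ofNorm ℝ (up_parallelogram U)

end hilbert

end Pool.Agent.Helper29.SphU
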