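import Mathlib
import Pool.Agent.Helper29.SphU.Ultra2
import Pool.Agent.Helper29.SphU.Defs

/-!
A Banach space which is finitely representable in `X` is isomorphic to a closed subspace of an
ultrapower of `X`.
-/

universe u

set_option linter.unusedSectionVars false

namespace Pool.Agent.Helper29.SphU

open Metric Filter Topology ENNReal Pool.Agent.Helper29.SphereUniform

variable {X Y : Type u} [NormedAddCommGroup X] [NormedSpace ℝ X] [NormedAddCommGroup Y]
  [NormedSpace ℝ Y]

/-- An ultrafilter on the finite subsets which is finer than the tails. -/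
noncomputable def tailU (Y : Type u) : Ultrafilter (Finset Y) := Ultrafilter.of atTop

lemma tailU_mem {Y : Type u} (s₀ : Finset Y) :
    ∀ᶠ s in (tailU Y : Filter (Finset Y)), s₀ ⊆ s := by
  have h : (tailU Y : Filter (Finset Y)) ≤ atTop := Ultrafilter.of_le atTop
  exact h (eventually_ge_atTop s₀)

section

variable (K : ℝ) (J : ∀ s : Finset Y, Submodule.span ℝ (s : Set Y) →ₗ[ℝ] X)
  (hJ : ∀ s e, ‖e‖ ≤ ‖J s e‖ ∧ ‖J s e‖ ≤ K * ‖e‖)

open Classical in
/-- The family of the images of a vector. -/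
noncomputable def embF (y : Y) (s : Finset Y) : X :=
  if h : y ∈ Submodule.span ℝ (s : Set Y) then J s ⟨y, h⟩ else 0

lemma embF_of {y : Y} {s : Finset Y} (h : y ∈ Submodule.span ℝ (s : Set Y)) :
    embF J y s = J s ⟨y, h⟩ := dif_pos h

include hJ in
lemma embF_le (y : Y) (s : Finset Y) : ‖embF J y s‖ ≤ |K| * ‖y‖ := by
  by_cases h : y ∈ Submodule.span ℝ (s : Set Y)
  · rw [embF_of J h]
    refine (hJ s ⟨y, h⟩).2.trans ?_
    exact mul_le_mul_of_nonneg_right (le_abs_self K) (norm_nonneg _)
  · rw [embF, dif_neg h, norm_zero]; positivity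

/-- The bounded family of the images of a vector. -/
noncomputable def embB (y : Y) : BSeq (Finset Y) X := mkB (embF J y) (|K| * ‖y‖) (embF_le K J hJ y)

lemma mem_of_subset {y : Y} {s : Finset Y} (h : {y} ⊆ s) :
    y ∈ Submodule.span ℝ (s : Set Y) :=
  Submodule.subset_span (h (Finset.mem_singleton_self y))

/-- The linear embedding in the ultrapower. -/
noncomputable def embL : Y →ₗ[ℝ] UP (tailU Y) X where
  toFun y := cl (tailU Y) (embB K J hJ y)
  map_add' y z := by
    rw [cl_add, cl_eq_iff]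
    refine Tendsto.congr' (f₁ := fun _ => (0 : ℝ)) ?_ tendsto_const_nhds
    filter_upwards [tailU_mem {y}, tailU_mem {z}] with s h1 h2
    have m1 := mem_of_subset h1
    have m2 := mem_of_subset h2
    have m3 : y + z ∈ Submodule.span ℝ (s : Set Y) := Submodule.add_mem _ m1 m2
    show 0 = ‖embF J (y + z) s - (embF J y s + embF J z s)‖
    rw [embF_of J m1, embF_of J m2, embF_of J m3, ← map_add]
    have : (⟨y + z, m3⟩ : Submodule.span ℝ (s : Set Y)) = ⟨y, m1⟩ + ⟨z, m2⟩ := rfl
    rw [this, sub_self, norm_zero]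
  map_smul' t y := by
    rw [RingHom.id_apply, cl_smul, cl_eq_iff]
    refine Tendsto.congr' (f₁ := fun _ => (0 : ℝ)) ?_ tendsto_const_nhds
    filter_upwards [tailU_mem {y}] with s h1
    have m1 := mem_of_subset h1
    have m3 : t • y ∈ Submodule.span ℝ (s : Set Y) := Submodule.smul_mem _ t m1
    show 0 = ‖embF J (t • y) s - t • embF J y s‖
    rw [embF_of J m1, embF_of J m3, ← map_smul]
    have : (⟨t • y, m3⟩ : Submodule.span ℝ (s : Set Y)) = t • ⟨y, m1⟩ := rfl
    rw [this, sub_self, norm_zero]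

lemma embL_apply (y : Y) : embL K J hJ y = cl (tailU Y) (embB K J hJ y) := rfl

lemma embL_bounds (y : Y) : ‖y‖ ≤ ‖embL K J hJ y‖ ∧ ‖embL K J hJ y‖ ≤ |K| * ‖y‖ := by
  rw [embL_apply]
  have h := tendsto_norm_cl (tailU Y) (embB K J hJ y)
  refine ⟨ge_of_tendsto h ?_, le_of_tendsto' h fun s => embF_le K J hJ y s⟩
  filter_upwards [tailU_mem {y}] with s h1
  have m1 := mem_of_subset h1
  show ‖y‖ ≤ ‖embF J y s‖
  rw [embF_of J m1]
  exact (hJ s ⟨y, m1⟩).1

end

/-- A finitely representable Banach space is a subquotient of an ultrapower. -/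
theorem subquotient_ultrapower [CompleteSpace Y] (h : FinitelyRepresentable Y X) :
    Subquotient Y (UP (tailU Y) X) := by
  obtain ⟨K, hK⟩ := h
  have hK' : ∀ s : Finset Y, ∃ J : Submodule.span ℝ (s : Set Y) →ₗ[ℝ] X,
      ∀ e, ‖e‖ ≤ ‖J e‖ ∧ ‖J e‖ ≤ K * ‖e‖ := fun s =>
    hK _ (FiniteDimensional.span_finset ℝ s)
  choose J hJ using hK'
  have hb := embL_bounds K J hJ
  let L : Y →L[ℝ] UP (tailU Y) X := (embL K J hJ).mkContinuous |K| (fun y => (hb y).2)
  have hanti : AntilipschitzWith 1 L := by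
    refine AddMonoidHomClass.antilipschitz_of_bound L fun y => ?_
    rw [NNReal.coe_one, one_mul]
    exact (hb y).1
  have hinj : Function.Injective L := hanti.injective
  have hcl : IsClosed (Set.range L) := hanti.isClosed_range L.uniformContinuous
  have hcl' : IsClosed (LinearMap.range L.toLinearMap : Set (UP (tailU Y) X)) := by
    rw [LinearMap.coe_range]
    exact hcl
  let e : Y ≃ₗ[ℝ] LinearMap.range L.toLinearMap :=
    LinearEquiv.ofInjective L.toLinearMap hinj
  have he : ∀ v : LinearMap.range L.toLinearMap, ‖e.symm v‖ ≤ 1 * ‖v‖ := by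
    intro v
    have h1 := (hb (e.symm v)).1
    have h2 : ((e (e.symm v) : LinearMap.range L.toLinearMap) : UP (tailU Y) X)
        = L (e.symm v) := rfl
    rw [e.apply_symm_apply] at h2
    rw [one_mul]
    refine h1.trans (le_of_eq ?_)
    show ‖L (e.symm v)‖ = ‖v‖
    rw [← h2]; rfl
  exact ⟨_, hcl', e.symm.toLinearMap.mkContinuous 1 he, e.symm.surjective⟩

end Pool.Agent.Helper29.SphU
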