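import Mathlib
import Pool.Agent.Helper29.SphU.Base

/-!
Countable Hilbertian sums: functoriality for the positively homogeneous maps of `Base`, and the
identifications which are needed for the decomposition method.
-/

set_option linter.unusedSectionVars false

namespace Pool.Agent.Helper29.SphU

open Metric ENNReal

/-- The countable Hilbertian sum of copies of `X`. -/
abbrev Ell (X : Type*) [NormedAddCommGroup X] := lp (fun _ : ℕ => X) 2

section

variable {X Y : Type*} [NormedAddCommGroup X] [NormedSpace ℝ X] [NormedAddCommGroup Y]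
    [NormedSpace ℝ Y]

lemma two_pos' : 0 < (2 : ℝ≥0∞).toReal := by norm_num

lemma ell_hasSum (x : Ell X) : HasSum (fun n => ‖x n‖ ^ 2) (‖x‖ ^ 2) := by
  have := lp.hasSum_norm two_pos' x
  simpa using this

lemma ell_summable (x : Ell X) : Summable (fun n => ‖x n‖ ^ 2) := (ell_hasSum x).summable

lemma mem_ell {x : ℕ → X} (h : Summable (fun n => ‖x n‖ ^ 2)) : Memℓp x 2 := by
  refine memℓp_gen ?_
  simpa using h

/-- The element of the Hilbertian sum with given coordinates. -/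
def mkEll (x : ℕ → X) (h : Summable (fun n => ‖x n‖ ^ 2)) : Ell X := ⟨x, mem_ell h⟩

lemma mkEll_apply (x : ℕ → X) (h : Summable (fun n => ‖x n‖ ^ 2)) (n : ℕ) :
    mkEll x h n = x n := rfl

lemma norm_sq_le_of_le {x : Ell X} {g : ℕ → ℝ} {S : ℝ} (hg : HasSum g S)
    (h : ∀ n, ‖x n‖ ^ 2 ≤ g n) : ‖x‖ ^ 2 ≤ S := hasSum_le h (ell_hasSum x) hg

/-- A linear map between such sums which is bounded coordinatewise. -/
lemma LM_of_sq {Z : Type*} [NormedAddCommGroup Z] {f : Z → Ell X} {K : ℝ} (hK : 0 ≤ K)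
    (hs : ∀ a b, f a - f b = f (a - b)) (h : ∀ a, ‖f a‖ ^ 2 ≤ K ^ 2 * ‖a‖ ^ 2) : LM f := by
  refine LM.of_linear hs hK (fun a => ?_)
  have := h a
  rw [← mul_pow] at this
  exact (pow_le_pow_iff_left₀ (norm_nonneg _) (by positivity) two_ne_zero).1 this

lemma map_summable (e : BU X Y) (he : ∀ x, ‖e.f x‖ = ‖x‖) (x : Ell X) :
    Summable (fun n => ‖e.f (x n)‖ ^ 2) := by
  simp only [he]; exact ell_summable x

lemma map_LM (e : BU X Y) (he : ∀ x, ‖e.f x‖ = ‖x‖) :
    LM (fun x : Ell X => mkEll (fun n => e.f (x n)) (map_summable e he x)) := by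
  intro ε hε
  obtain ⟨C, hC, h⟩ := e.lf (ε / 2) (by positivity)
  refine ⟨2 * C, by positivity, fun a b => ?_⟩
  have key : ‖mkEll (fun n => e.f (a n)) (map_summable e he a)
      - mkEll (fun n => e.f (b n)) (map_summable e he b)‖ ^ 2
      ≤ 3 * ((ε / 2) ^ 2 * ‖a‖ ^ 2 + (ε / 2) ^ 2 * ‖b‖ ^ 2 + C ^ 2 * ‖a - b‖ ^ 2) := by
    refine norm_sq_le_of_le (((((ell_hasSum a).mul_left ((ε / 2) ^ 2)).add
      ((ell_hasSum b).mul_left ((ε / 2) ^ 2))).add
      ((ell_hasSum (a - b)).mul_left (C ^ 2))).mul_left 3) (fun n => ?_)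
    have h1 := h (a n) (b n)
    have h2 : ‖(mkEll (fun n => e.f (a n)) (map_summable e he a)
      - mkEll (fun n => e.f (b n)) (map_summable e he b)) n‖ = ‖e.f (a n) - e.f (b n)‖ := rfl
    have h3 : (a - b) n = a n - b n := rfl
    rw [h2, h3]
    have h4 : ‖e.f (a n) - e.f (b n)‖ ^ 2
        ≤ (ε / 2 * (‖a n‖ + ‖b n‖) + C * ‖a n - b n‖) ^ 2 :=
      pow_le_pow_left₀ (norm_nonneg _) h1 2
    refine h4.trans ?_
    nlinarith [sq_nonneg (ε / 2 * ‖a n‖ - ε / 2 * ‖b n‖),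
      sq_nonneg (ε / 2 * ‖a n‖ - C * ‖a n - b n‖), sq_nonneg (ε / 2 * ‖b n‖ - C * ‖a n - b n‖)]
  have key2 : 3 * ((ε / 2) ^ 2 * ‖a‖ ^ 2 + (ε / 2) ^ 2 * ‖b‖ ^ 2 + C ^ 2 * ‖a - b‖ ^ 2)
      ≤ (ε * (‖a‖ + ‖b‖) + 2 * C * ‖a - b‖) ^ 2 := by
    have p1 : 0 ≤ ε * ‖a‖ := by positivity
    have p2 : 0 ≤ ε * ‖b‖ := by positivity
    have p3 : 0 ≤ C * ‖a - b‖ := by positivity
    nlinarith [mul_nonneg p1 p2, mul_nonneg p1 p3, mul_nonneg p2 p3, sq_nonneg (ε * ‖a‖),
      sq_nonneg (ε * ‖b‖), sq_nonneg (C * ‖a - b‖)]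
  exact (pow_le_pow_iff_left₀ (norm_nonneg _) (by positivity) two_ne_zero).1 (key.trans key2)

/-- Functoriality of the Hilbertian sum. -/
theorem BU.ell (e : BU X Y) : Nonempty (BU (Ell X) (Ell Y)) := by
  obtain ⟨e', he⟩ := e.exists_norm_eq
  have he' : ∀ y, ‖e'.g y‖ = ‖y‖ := fun y => by rw [← he, e'.fg]
  refine ⟨⟨fun x => mkEll (fun n => e'.f (x n)) (map_summable e' he x),
    fun y => mkEll (fun n => e'.g (y n)) (map_summable e'.symm he' y), ?_, ?_, ?_,
    map_LM e' he, map_LM e'.symm he'⟩⟩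
  · intro x
    ext n
    exact e'.gf (x n)
  · intro y
    ext n
    exact e'.fg (y n)
  · intro t ht x
    ext n
    exact e'.hom t ht (x n)

/-- The Hilbertian sum of products. -/
noncomputable def ellProd (X Y : Type*) [NormedAddCommGroup X] [NormedSpace ℝ X] [NormedAddCommGroup Y]
    [NormedSpace ℝ Y] : BU (Ell (X × Y)) (Ell X × Ell Y) where
  f p := (mkEll (fun n => (p n).1) (Summable.of_nonneg_of_le (fun _ => by positivity)
      (fun n => pow_le_pow_left₀ (norm_nonneg _) (norm_fst_le (p n)) 2) (ell_summable p)),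
    mkEll (fun n => (p n).2) (Summable.of_nonneg_of_le (fun _ => by positivity)
      (fun n => pow_le_pow_left₀ (norm_nonneg _) (norm_snd_le (p n)) 2) (ell_summable p)))
  g q := mkEll (fun n => (q.1 n, q.2 n)) (Summable.of_nonneg_of_le (fun _ => by positivity)
      (fun n => by
        rw [Prod.norm_def]
        rcases max_choice ‖q.1 n‖ ‖q.2 n‖ with h | h
        · rw [h]; linarith [sq_nonneg ‖q.2 n‖]
        · rw [h]; linarith [sq_nonneg ‖q.1 n‖])
      ((ell_summable q.1).add (ell_summable q.2)))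
  gf p := by ext n <;> rfl
  fg q := by
    refine Prod.ext ?_ ?_ <;> ext n <;> rfl
  hom t _ p := by
    refine Prod.ext ?_ ?_ <;> ext n <;> rfl
  lf := by
    refine LM.prod (LM_of_sq zero_le_one (fun a b => by ext n; rfl) fun a => ?_)
      (LM_of_sq zero_le_one (fun a b => by ext n; rfl) fun a => ?_)
    · rw [one_pow, one_mul]
      exact norm_sq_le_of_le (ell_hasSum a)
        (fun n => pow_le_pow_left₀ (norm_nonneg _) (norm_fst_le (a n)) 2)
    · rw [one_pow, one_mul]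
      exact norm_sq_le_of_le (ell_hasSum a)
        (fun n => pow_le_pow_left₀ (norm_nonneg _) (norm_snd_le (a n)) 2)
  lg := by
    refine LM_of_sq (K := 2) zero_le_two (fun a b => by ext n <;> rfl) fun a => ?_
    have h1 : ‖a.1‖ ^ 2 + ‖a.2‖ ^ 2 ≤ 2 ^ 2 * ‖a‖ ^ 2 := by
      have e1 := pow_le_pow_left₀ (norm_nonneg _) (norm_fst_le a) 2
      have e2 := pow_le_pow_left₀ (norm_nonneg _) (norm_snd_le a) 2
      nlinarith [sq_nonneg ‖a‖]
    refine le_trans ?_ h1
    refine norm_sq_le_of_le ((ell_hasSum a.1).add (ell_hasSum a.2)) fun n => ?_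
    show ‖(a.1 n, a.2 n)‖ ^ 2 ≤ _
    rw [Prod.norm_def]
    rcases max_choice ‖a.1 n‖ ‖a.2 n‖ with h | h
    · rw [h]; linarith [sq_nonneg ‖a.2 n‖]
    · rw [h]; linarith [sq_nonneg ‖a.1 n‖]

/-- Put a vector in front of a sequence. -/
def consFun (a : X) (x : ℕ → X) : ℕ → X
  | 0 => a
  | n + 1 => x n

lemma cons_hasSum (a : X) (x : Ell X) : HasSum (fun n => ‖consFun a x n‖ ^ 2)
    (‖a‖ ^ 2 + ‖x‖ ^ 2) := by
  have := ell_hasSum x
  rw [← hasSum_nat_add_iff' 1]
  simpa [consFun] using this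

lemma tail_hasSum (x : Ell X) : HasSum (fun n => ‖x (n + 1)‖ ^ 2) (‖x‖ ^ 2 - ‖x 0‖ ^ 2) := by
  have h := (hasSum_nat_add_iff' 1).2 (ell_hasSum x)
  simpa using h

/-- Absorption of one more copy. -/
noncomputable def ellCons (X : Type*) [NormedAddCommGroup X] [NormedSpace ℝ X] :
    BU (X × Ell X) (Ell X) where
  f p := mkEll (consFun p.1 p.2) (cons_hasSum p.1 p.2).summable
  g x := (x 0, mkEll (fun n => x (n + 1)) (tail_hasSum x).summable)
  gf p := by
    refine Prod.ext rfl ?_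
    ext n
    rfl
  fg x := by
    ext n
    rw [mkEll_apply]
    cases n with
    | zero => rfl
    | succ n => rfl
  hom t _ p := by
    ext n
    rw [mkEll_apply, lp.coeFn_smul, Pi.smul_apply, mkEll_apply]
    cases n with
    | zero => rfl
    | succ n => rfl
  lf := by
    refine LM_of_sq (K := 2) zero_le_two (fun a b => ?_) fun a => ?_
    · ext n
      rw [lp.coeFn_sub, Pi.sub_apply, mkEll_apply, mkEll_apply, mkEll_apply]
      cases n with
      | zero => rfl
      | succ n => rfl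
    have h1 : ‖a.1‖ ^ 2 + ‖a.2‖ ^ 2 ≤ 2 ^ 2 * ‖a‖ ^ 2 := by
      have e1 := pow_le_pow_left₀ (norm_nonneg _) (norm_fst_le a) 2
      have e2 := pow_le_pow_left₀ (norm_nonneg _) (norm_snd_le a) 2
      nlinarith [sq_nonneg ‖a‖]
    exact le_trans (norm_sq_le_of_le (cons_hasSum a.1 a.2) fun n => le_rfl) h1
  lg := by
    refine LM.prod (LM.of_linear (fun _ _ => rfl) zero_le_one fun a => ?_)
      (LM_of_sq zero_le_one (fun a b => ?_) fun a => ?_)
    · rw [one_mul]; exact lp.norm_apply_le_norm two_ne_zero a 0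
    · ext n
      rw [lp.coeFn_sub, Pi.sub_apply, mkEll_apply, mkEll_apply, mkEll_apply]
      rfl
    · rw [one_pow, one_mul]
      refine (norm_sq_le_of_le (tail_hasSum a) fun n => le_rfl).trans ?_
      linarith [sq_nonneg ‖a 0‖]

end

end Pool.Agent.Helper29.SphU
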