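import Mathlib
import Pool.Agent.Helper29.SphU.Ell

/-!
The countable Hilbertian sum of an infinite dimensional Hilbert space with itself.
-/

set_option linter.unusedSectionVars false

namespace Pool.Agent.Helper29.SphU

open Metric ENNReal

variable {H : Type*} [NormedAddCommGroup H] [InnerProductSpace ℝ H] [CompleteSpace H]

/-- The vectors of a Hilbert basis of the Hilbertian sum. -/
noncomputable def hv {w : Type*} (b : HilbertBasis w ℝ H) (e : w ≃ ℕ × w) (j : w) : Ell H :=
  lp.single 2 (e j).1 (b (e j).2)

lemma hv_orthonormal {w : Type*} (b : HilbertBasis w ℝ H) (e : w ≃ ℕ × w) :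
    Orthonormal ℝ (hv b e) := by
  classical
  rw [orthonormal_iff_ite]
  intro i j
  simp only [hv]
  rw [lp.inner_single_left, lp.single_apply]
  have hb := orthonormal_iff_ite.1 b.orthonormal
  by_cases h : i = j
  · subst h
    simp only [Pi.single_eq_same, if_true, hb]
  · rw [if_neg h]
    by_cases h1 : (e i).1 = (e j).1
    · have h2 : (e i).2 ≠ (e j).2 := fun h2 => h (e.injective (Prod.ext h1 h2))
      rw [h1, Pi.single_eq_same, hb, if_neg h2]
    · rw [Pi.single_eq_of_ne h1, inner_zero_right]

lemma hv_complement {w : Type*} (b : HilbertBasis w ℝ H) (e : w ≃ ℕ × w) :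
    (Submodule.span ℝ (Set.range (hv b e)))ᗮ = ⊥ := by
  rw [Submodule.eq_bot_iff]
  intro f hf
  rw [Submodule.mem_orthogonal] at hf
  ext n
  have h0 : b.repr (f n) = 0 := by
    ext i
    rw [b.repr_apply_apply]
    have h1 := hf (hv b e (e.symm (n, i))) (Submodule.subset_span ⟨_, rfl⟩)
    rw [hv, lp.inner_single_left, e.apply_symm_apply] at h1
    simpa using h1
  have h2 := congrArg b.repr.symm h0
  simpa using h2

/-- An infinite dimensional Hilbert space is the Hilbertian sum of countably many copies of
itself. -/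
theorem ell_hilbert (hH : ¬ FiniteDimensional ℝ H) : Nonempty (BU (Ell H) H) := by
  obtain ⟨w, b, -⟩ := exists_hilbertBasis ℝ H
  have hw : Infinite w := by
    by_contra hcon
    rw [not_infinite_iff_finite] at hcon
    haveI := Fintype.ofFinite w
    exact hH (b.toOrthonormalBasis.toBasis.finiteDimensional_of_finite)
  have hc : Cardinal.mk w = Cardinal.mk (ℕ × w) := by
    rw [Cardinal.mk_prod, Cardinal.mk_nat, Cardinal.lift_aleph0, Cardinal.lift_uzero,
      Cardinal.aleph0_mul_eq (Cardinal.aleph0_le_mk w)]
  obtain ⟨e⟩ := Cardinal.eq.1 hc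
  let b' : HilbertBasis w ℝ (Ell H) :=
    HilbertBasis.mkOfOrthogonalEqBot (hv_orthonormal b e) (hv_complement b e)
  exact ⟨BU.ofCLE (b'.repr.trans b.repr.symm).toContinuousLinearEquiv⟩

end Pool.Agent.Helper29.SphU
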