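import Mathlib
import Pool.Agent.Helper29.SphU.Base
import Pool.Agent.Helper29.SphU.Quot
import Pool.Agent.Helper29.SphU.Ell
import Pool.Agent.Helper29.SphU.Hil
import Pool.Agent.Helper29.SphU.Defs

/-!
The class of superreflexive spaces whose unit sphere is uniformly homeomorphic to the unit sphere
of a fixed infinite dimensional Hilbert space: subquotients and extensions.
-/

universe u

set_option linter.unusedSectionVars false

namespace Pool.Agent.Helper29.SphU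

open Metric Pool.Agent.Helper29.SphereUniform

/-- Equivalence in the category of positively homogeneous maps. -/
def Eqv (X Y : Type u) [NormedAddCommGroup X] [NormedSpace ℝ X] [NormedAddCommGroup Y]
    [NormedSpace ℝ Y] : Prop := Nonempty (BU X Y)

section

variable {X Y Z W : Type u} [NormedAddCommGroup X] [NormedSpace ℝ X] [NormedAddCommGroup Y]
    [NormedSpace ℝ Y] [NormedAddCommGroup Z] [NormedSpace ℝ Z] [NormedAddCommGroup W]
    [NormedSpace ℝ W]

lemma Eqv.symm (h : Eqv X Y) : Eqv Y X := h.map BU.symm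

lemma Eqv.trans (h : Eqv X Y) (h' : Eqv Y Z) : Eqv X Z := by
  obtain ⟨e⟩ := h
  obtain ⟨e'⟩ := h'
  exact ⟨e.trans e'⟩

lemma Eqv.rfl' (X : Type u) [NormedAddCommGroup X] [NormedSpace ℝ X] : Eqv X X := ⟨BU.refl X⟩

lemma Eqv.prod (h : Eqv X Y) (h' : Eqv Z W) : Eqv (X × Z) (Y × W) := by
  obtain ⟨e⟩ := h
  obtain ⟨e'⟩ := h'
  exact ⟨e.prod e'⟩

lemma Eqv.comm (X Y : Type u) [NormedAddCommGroup X] [NormedSpace ℝ X] [NormedAddCommGroup Y]
    [NormedSpace ℝ Y] : Eqv (X × Y) (Y × X) := ⟨BU.comm X Y⟩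

lemma Eqv.assoc (X Y Z : Type u) [NormedAddCommGroup X] [NormedSpace ℝ X] [NormedAddCommGroup Y]
    [NormedSpace ℝ Y] [NormedAddCommGroup Z] [NormedSpace ℝ Z] :
    Eqv ((X × Y) × Z) (X × Y × Z) := ⟨BU.assoc X Y Z⟩

lemma Eqv.ell (h : Eqv X Y) : Eqv (Ell X) (Ell Y) := by
  obtain ⟨e⟩ := h
  exact e.ell

lemma Eqv.ellProd (X Y : Type u) [NormedAddCommGroup X] [NormedSpace ℝ X] [NormedAddCommGroup Y]
    [NormedSpace ℝ Y] : Eqv (Ell (X × Y)) (Ell X × Ell Y) := ⟨SphU.ellProd X Y⟩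

lemma Eqv.ellCons (X : Type u) [NormedAddCommGroup X] [NormedSpace ℝ X] :
    Eqv (X × Ell X) (Ell X) := ⟨SphU.ellCons X⟩

lemma eqv_iff : Eqv X Y ↔ SpheresEquivalent X Y :=
  ⟨fun ⟨e⟩ => e.toSph, fun ⟨φ⟩ => ⟨BU.ofSphere φ⟩⟩

end

section exact

variable {X : Type u} [NormedAddCommGroup X] [NormedSpace ℝ X] [UniformConvexSpace X]
  [CompleteSpace X] {Z : Type u} [NormedAddCommGroup Z] [NormedSpace ℝ Z] [CompleteSpace Z]

/-- The quotient by the kernel of a bounded linear surjection between Banach spaces. -/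
lemma quot_ker_equiv (T : X →L[ℝ] Z) (hT : Function.Surjective T)
    (hc : IsClosed (LinearMap.ker T.toLinearMap : Set X)) :
    Nonempty ((X ⧸ LinearMap.ker T.toLinearMap) ≃L[ℝ] Z) := by
  let L : (X ⧸ LinearMap.ker T.toLinearMap) →ₗ[ℝ] Z :=
    (LinearMap.ker T.toLinearMap).liftQ T.toLinearMap le_rfl
  have hL : ∀ z, ‖L z‖ ≤ ‖T‖ * ‖z‖ := by
    intro z
    have h1 : L z = T (lift (LinearMap.ker T.toLinearMap) z) := by
      conv_lhs => rw [← mkQ_lift (LinearMap.ker T.toLinearMap) z]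
      rfl
    rw [h1, ← norm_lift (LinearMap.ker T.toLinearMap) z]
    exact T.le_opNorm _
  have hker : LinearMap.ker L = ⊥ := Submodule.ker_liftQ_eq_bot _ _ _ le_rfl
  have hrange : LinearMap.range L = ⊤ := by
    rw [LinearMap.range_eq_top]
    intro z
    obtain ⟨x, hx⟩ := hT z
    exact ⟨Submodule.Quotient.mk x, hx⟩
  let L' : (X ⧸ LinearMap.ker T.toLinearMap) →L[ℝ] Z := L.mkContinuous ‖T‖ hL
  exact ⟨ContinuousLinearEquiv.ofBijective L' hker hrange⟩

/-- The nonlinear splitting of a bounded linear surjection on a uniformly convex space. -/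
lemma uc_exact (T : X →L[ℝ] Z) (hT : Function.Surjective T) :
    Eqv X (LinearMap.ker T.toLinearMap × Z) ∧ Superreflexive Z := by
  have hc : IsClosed (LinearMap.ker T.toLinearMap : Set X) := T.isClosed_ker
  obtain ⟨e⟩ := quot_ker_equiv T hT hc
  refine ⟨Eqv.trans ⟨split (LinearMap.ker T.toLinearMap)⟩
    (Eqv.prod (Eqv.rfl' _) ⟨BU.ofCLE e⟩), ⟨X ⧸ LinearMap.ker T.toLinearMap, inferInstance,
      inferInstance, inferInstance, quot_uc _, ⟨e.symm⟩⟩⟩

end exact

section sr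

variable {X : Type u} [NormedAddCommGroup X] [NormedSpace ℝ X]
  {Y : Type u} [NormedAddCommGroup Y] [NormedSpace ℝ Y] [CompleteSpace Y]
  {Z : Type u} [NormedAddCommGroup Z] [NormedSpace ℝ Z] [CompleteSpace Z]

/-- Exact sequences with a superreflexive middle term split nonlinearly. -/
lemma sr_exact (hX : Superreflexive X) (J : Y →L[ℝ] X) (T : X →L[ℝ] Z)
    (hJ : Function.Injective J) (hT : Function.Surjective T)
    (hJT : ∀ x, T x = 0 ↔ ∃ y, J y = x) : Eqv X (Y × Z) := by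
  obtain ⟨X', _, _, _, _, ⟨e⟩⟩ := hX
  let T' : X' →L[ℝ] Z := T.comp (e.symm : X' →L[ℝ] X)
  have hT' : Function.Surjective T' := hT.comp e.symm.surjective
  have h1 := (uc_exact T' hT').1
  haveI hc : IsClosed (LinearMap.ker T'.toLinearMap : Set X') := T'.isClosed_ker
  haveI : CompleteSpace (LinearMap.ker T'.toLinearMap) := hc.completeSpace_coe
  have hmem : ∀ y, e (J y) ∈ LinearMap.ker T'.toLinearMap := by
    intro y
    show T (e.symm (e (J y))) = 0
    rw [e.symm_apply_apply]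
    exact (hJT _).2 ⟨y, rfl⟩
  let J' : Y →L[ℝ] LinearMap.ker T'.toLinearMap :=
    ((e : X →L[ℝ] X').comp J).codRestrict _ hmem
  have hJ1 : LinearMap.ker J'.toLinearMap = ⊥ := by
    rw [LinearMap.ker_eq_bot]
    intro a b hab
    have := congrArg Subtype.val hab
    exact hJ (e.injective this)
  have hJ2 : LinearMap.range J'.toLinearMap = ⊤ := by
    rw [LinearMap.range_eq_top]
    rintro ⟨x, hx⟩
    obtain ⟨y, hy⟩ := (hJT (e.symm x)).1 hx
    refine ⟨y, Subtype.ext ?_⟩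
    show e (J y) = x
    rw [hy, e.apply_symm_apply]
  have h2 : Eqv Y (LinearMap.ker T'.toLinearMap) :=
    ⟨BU.ofCLE (ContinuousLinearEquiv.ofBijective J' hJ1 hJ2)⟩
  exact Eqv.trans ⟨BU.ofCLE e⟩ (h1.trans (Eqv.prod h2.symm (Eqv.rfl' _)))

/-- A subquotient is a nonlinear factor. -/
lemma factor (hX : Superreflexive X) (hs : Subquotient Y X) :
    Superreflexive Y ∧ ∃ (Q : Type u) (_ : NormedAddCommGroup Q) (_ : NormedSpace ℝ Q),
      Eqv X (Y × Q) := by
  obtain ⟨X', _, _, _, _, ⟨e⟩⟩ := hX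
  obtain ⟨V, hV, T, hT⟩ := hs
  let V' : Submodule ℝ X' := V.comap (e.symm : X' →L[ℝ] X).toLinearMap
  haveI hV' : IsClosed (V' : Set X') := hV.preimage e.symm.continuous
  haveI : CompleteSpace V' := hV'.completeSpace_coe
  haveI : UniformConvexSpace V' := sub_uc V'
  let P : V' →L[ℝ] V := ((e.symm : X' →L[ℝ] X).comp V'.subtypeL).codRestrict V (fun v => v.2)
  have hP : Function.Surjective P := by
    rintro ⟨v, hv⟩
    refine ⟨⟨e v, ?_⟩, Subtype.ext ?_⟩
    · show e.symm (e v) ∈ V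
      rw [e.symm_apply_apply]; exact hv
    · show e.symm (e v) = v
      rw [e.symm_apply_apply]
  obtain ⟨h1, h2⟩ := uc_exact (T.comp P) (hT.comp hP)
  refine ⟨h2, ⟨LinearMap.ker (T.comp P).toLinearMap × (X' ⧸ V'), inferInstance, inferInstance, ?_⟩⟩
  have h3 : Eqv X' (V' × (X' ⧸ V')) := ⟨split V'⟩
  have h4 : Eqv V' (Y × LinearMap.ker (T.comp P).toLinearMap) := h1.trans (Eqv.comm _ _)
  exact Eqv.trans ⟨BU.ofCLE e⟩ (h3.trans ((Eqv.prod h4 (Eqv.rfl' _)).trans (Eqv.assoc _ _ _)))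

end sr

section decomposition

variable {H : Type u} [NormedAddCommGroup H] [NormedSpace ℝ H] (hH : Eqv (Ell H) H)
  {X : Type u} [NormedAddCommGroup X] [NormedSpace ℝ X]
  {Y : Type u} [NormedAddCommGroup Y] [NormedSpace ℝ Y]
  {Q : Type u} [NormedAddCommGroup Q] [NormedSpace ℝ Q]

include hH

lemma H_sq : Eqv (H × H) H :=
  ((Eqv.prod (Eqv.rfl' H) hH.symm).trans (Eqv.ellCons H)).trans hH

/-- A factor of a factor of `H` is absorbed by `H`. -/
lemma absorb (hX : Eqv (X × H) H) (h : Eqv X (Y × Q)) : Eqv (Y × H) H := by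
  have h1 : Eqv H (Y × (Q × H)) :=
    (hX.symm.trans (Eqv.prod h (Eqv.rfl' H))).trans (Eqv.assoc Y Q H)
  have h2 : Eqv H (Ell Y × Ell (Q × H)) :=
    (hH.symm.trans h1.ell).trans (Eqv.ellProd Y (Q × H))
  have h3 : Eqv (Y × H) ((Y × Ell Y) × Ell (Q × H)) :=
    (Eqv.prod (Eqv.rfl' Y) h2).trans (Eqv.assoc _ _ _).symm
  exact (h3.trans (Eqv.prod (Eqv.ellCons Y) (Eqv.rfl' _))).trans h2.symm

lemma extend (hY : Eqv (Y × H) H) (hQ : Eqv (Q × H) H) (h : Eqv X (Y × Q)) : Eqv (X × H) H :=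
  ((Eqv.prod h (Eqv.rfl' H)).trans (Eqv.assoc Y Q H)).trans
    ((Eqv.prod (Eqv.rfl' Y) hQ).trans hY)

lemma conclude (hX : Eqv (X × H) H) (hY : Eqv Y H) (h : Eqv X (Y × Q)) : Eqv X H := by
  have h1 : Eqv X (H × Q) := h.trans (Eqv.prod hY (Eqv.rfl' Q))
  have h2 : Eqv (H × Q) (H × (H × Q)) :=
    (Eqv.prod (H_sq hH).symm (Eqv.rfl' Q)).trans (Eqv.assoc H H Q)
  have h3 : Eqv X (H × X) := (h1.trans h2).trans (Eqv.prod (Eqv.rfl' H) h1.symm)
  exact (h3.trans (Eqv.comm H X)).trans hX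

end decomposition

end Pool.Agent.Helper29.SphU
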