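import Mathlib
import Pool.Agent.Helper29.SphU.Final

/-!
Reduction of the density character: if `Y × K` is equivalent to `K` for a large Hilbert space `K`,
then `Y × H` is equivalent to `H` for every Hilbert space `H` whose dimension is infinite and at
least the density character of `Y`.
-/

universe u

set_option linter.unusedSectionVars false

namespace Pool.Agent.Helper29.SphU

open Metric Filter Topology Cardinal

section small

variable {κ : Cardinal.{u}} (hκ : ℵ₀ ≤ κ)
variable {A B : Type u} [TopologicalSpace A] [TopologicalSpace B]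

/-- `S` is contained in the closure of a set of cardinality at most `κ`. -/
def Sm (κ : Cardinal.{u}) {A : Type u} [TopologicalSpace A] (S : Set A) : Prop :=
  ∃ D : Set A, #D ≤ κ ∧ S ⊆ closure D

omit [TopologicalSpace A] in
include hκ in
lemma card_iUnion {ι : Type u} (hι : #ι ≤ κ) (f : ι → Set A) (hf : ∀ i, #(f i) ≤ κ) :
    #(⋃ i, f i : Set A) ≤ κ := by
  refine (mk_iUnion_le f).trans ?_
  refine (mul_le_mul' hι (ciSup_le' hf)).trans ?_
  rw [mul_eq_self hκ]

lemma Sm.mono {S T : Set A} (h : Sm κ T) (hST : S ⊆ T) : Sm κ S := by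
  obtain ⟨D, h1, h2⟩ := h
  exact ⟨D, h1, hST.trans h2⟩

lemma Sm.closure {S : Set A} (h : Sm κ S) : Sm κ (closure S) := by
  obtain ⟨D, h1, h2⟩ := h
  exact ⟨D, h1, closure_minimal h2 isClosed_closure⟩

include hκ in
lemma Sm.union {S T : Set A} (h : Sm κ S) (h' : Sm κ T) : Sm κ (S ∪ T) := by
  obtain ⟨D, h1, h2⟩ := h
  obtain ⟨E, h3, h4⟩ := h'
  refine ⟨D ∪ E, (mk_union_le D E).trans ((add_le_add h1 h3).trans ?_), ?_⟩
  · rw [add_eq_self hκ]
  · rw [closure_union]
    exact Set.union_subset_union h2 h4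

include hκ in
lemma Sm.iUnion {ι : Type u} (hι : #ι ≤ κ) {S : ι → Set A} (h : ∀ i, Sm κ (S i)) :
    Sm κ (⋃ i, S i) := by
  choose D h1 h2 using h
  refine ⟨⋃ i, D i, card_iUnion hκ hι D h1, ?_⟩
  refine Set.iUnion_subset fun i => (h2 i).trans (closure_mono (Set.subset_iUnion D i))

include hκ in
lemma Sm.iUnionNat {S : ℕ → Set A} (h : ∀ i, Sm κ (S i)) : Sm κ (⋃ i, S i) := by
  have h1 : Sm κ (⋃ i : ULift.{u} ℕ, S i.down) := by
    refine Sm.iUnion hκ ?_ fun i => h i.down
    rw [mk_uLift, mk_nat, lift_aleph0]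
    exact hκ
  refine h1.mono (Set.iUnion_subset fun i => ?_)
  exact Set.subset_iUnion (fun i : ULift.{u} ℕ => S i.down) ⟨i⟩

lemma Sm.image {S : Set A} (h : Sm κ S) {f : A → B} (hf : Continuous f) : Sm κ (f '' S) := by
  obtain ⟨D, h1, h2⟩ := h
  exact ⟨f '' D, mk_image_le.trans h1,
    (Set.image_mono h2).trans (image_closure_subset_closure_image hf)⟩

include hκ in
lemma Sm.prod {S : Set A} {T : Set B} (h : Sm κ S) (h' : Sm κ T) : Sm κ (S ×ˢ T) := by
  obtain ⟨D, h1, h2⟩ := h
  obtain ⟨E, h3, h4⟩ := h'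
  refine ⟨D ×ˢ E, ?_, ?_⟩
  · rw [mk_setProd]
    refine (mul_le_mul' h1 h3).trans ?_
    rw [mul_eq_self hκ]
  · rw [closure_prod_eq]
    exact Set.prod_mono h2 h4

end small

section span

variable {κ : Cardinal.{u}} (hκ : ℵ₀ ≤ κ)
variable {K : Type u} [NormedAddCommGroup K] [NormedSpace ℝ K]

include hκ in
lemma sm_span_of_card {D : Set K} (h : #D ≤ κ) : Sm κ (Submodule.span ℝ D : Set K) := by
  have hfin : ∀ s : Finset D, Sm κ (Submodule.span ℝ ((fun x : D => (x : K)) '' (s : Set D)) : Set K) := by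
    intro s
    have hs : (((fun x : D => (x : K)) '' (s : Set D))).Countable :=
      (s.finite_toSet.image _).countable
    have := hs.isSeparable.span (R := ℝ)
    obtain ⟨c, hc, hc'⟩ := this
    exact ⟨c, (mk_le_aleph0_iff.2 hc).trans hκ, hc'⟩
  have hcard : #(Finset D) ≤ κ := by
    rcases finite_or_infinite D with hD | hD
    · haveI := hD
      exact (mk_le_aleph0 (α := Finset D)).trans hκ
    · rw [mk_finset_of_infinite]; exact h
  refine (Sm.iUnion hκ hcard hfin).mono fun x hx => ?_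
  obtain ⟨t, ht, hx'⟩ := Submodule.mem_span_finite_of_mem_span hx
  rw [Set.mem_iUnion]
  classical
  refine ⟨t.attach.image (fun y => ⟨y.1, ht y.2⟩), ?_⟩
  have : (fun x : D => (x : K)) '' ((t.attach.image (fun y => (⟨y.1, ht y.2⟩ : D))) : Set D)
      = (t : Set K) := by
    ext z
    simp only [Finset.coe_image, Set.mem_image, Finset.mem_coe, Finset.mem_attach, true_and]
    constructor
    · rintro ⟨a, ⟨b, rfl⟩, rfl⟩
      exact b.2
    · intro hz
      exact ⟨⟨z, ht hz⟩, ⟨⟨z, hz⟩, rfl⟩, rfl⟩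
  rw [this]
  exact hx'

include hκ in
lemma Sm.span {S : Set K} (h : Sm κ S) : Sm κ (Submodule.span ℝ S : Set K) := by
  obtain ⟨D, h1, h2⟩ := h
  have h3 := (sm_span_of_card (K := K) hκ h1).closure
  refine h3.mono ?_
  have h4 : Submodule.span ℝ S ≤ (Submodule.span ℝ D).topologicalClosure := by
    rw [Submodule.span_le]
    refine h2.trans ?_
    exact closure_mono Submodule.subset_span
  exact h4

end span

section hilbert

variable {K : Type u} [NormedAddCommGroup K] [InnerProductSpace ℝ K]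

/-- An orthonormal family in the closure of `D` has at most as many elements as `D`. -/
lemma card_orthonormal {ι : Type u} {v : ι → K} (hv : Orthonormal ℝ v) {D : Set K}
    (hD : ∀ i, v i ∈ closure D) : #ι ≤ #D := by
  have h : ∀ i, ∃ d : D, ‖v i - d‖ < 1 / 2 := by
    intro i
    obtain ⟨d, hd, hd'⟩ := Metric.mem_closure_iff.1 (hD i) (1 / 2) (by norm_num)
    exact ⟨⟨d, hd⟩, by rwa [dist_eq_norm] at hd'⟩
  choose d hd using h
  refine mk_le_of_injective (f := d) fun i j hij => ?_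
  by_contra hne
  have h1 : ‖v i - v j‖ < 1 := by
    have e : v i - v j = (v i - d i) - (v j - d j) := by rw [hij]; abel
    rw [e]
    refine (norm_sub_le _ _).trans_lt ?_
    linarith [hd i, hd j]
  have h2 : ‖v i - v j‖ ^ 2 = 2 := by
    rw [norm_sub_sq_real, hv.1 i, hv.1 j, hv.2 hne]
    norm_num
  have h3 : ‖v i - v j‖ ^ 2 < 1 := by
    nlinarith [norm_nonneg (v i - v j)]
  linarith

end hilbert

lemma LM.continuous {X Y : Type*} [NormedAddCommGroup X] [NormedAddCommGroup Y] {f : X → Y}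
    (hf : LM f) : Continuous f := by
  rw [continuous_iff_continuousAt]
  intro a
  rw [Metric.continuousAt_iff]
  intro η hη
  obtain ⟨C, hC, h⟩ := hf (η / (2 * (2 * ‖a‖ + 1) + 1)) (by positivity)
  refine ⟨min 1 (η / (2 * (C + 1))), by positivity, fun {x} hx => ?_⟩
  rw [dist_eq_norm] at hx ⊢
  have hx1 : ‖x - a‖ < 1 := hx.trans_le (min_le_left _ _)
  have hx2 : ‖x - a‖ < η / (2 * (C + 1)) := hx.trans_le (min_le_right _ _)
  have hxn : ‖x‖ ≤ ‖a‖ + 1 := by
    have := norm_add_le (x - a) a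
    rw [sub_add_cancel] at this
    linarith
  have h1 : η / (2 * (2 * ‖a‖ + 1) + 1) * (‖x‖ + ‖a‖) < η / 2 := by
    rw [div_mul_eq_mul_div, div_lt_div_iff₀ (by positivity) (by norm_num)]
    nlinarith [norm_nonneg a, norm_nonneg x]
  have h2 : C * ‖x - a‖ ≤ η / 2 := by
    have h3 : C * ‖x - a‖ ≤ C * (η / (2 * (C + 1))) := mul_le_mul_of_nonneg_left hx2.le hC
    have h4 : C * (η / (2 * (C + 1))) ≤ η / 2 := by
      rw [mul_div_assoc', div_le_div_iff₀ (by positivity) (by norm_num)]
      nlinarith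
    linarith
  linarith [h x a]

section closing

variable {Y : Type u} [NormedAddCommGroup Y] [NormedSpace ℝ Y]
  {K : Type u} [NormedAddCommGroup K] [InnerProductSpace ℝ K]
  (e : BU (Y × K) K) (V₀ : Submodule ℝ K)

/-- The increasing sequence of subspaces in the closing off argument. -/
def chain : ℕ → Submodule ℝ K
  | 0 => V₀
  | n + 1 => Submodule.span ℝ (((chain n : Set K)
      ∪ e.f '' (Set.univ ×ˢ (chain n : Set K))) ∪ (fun k => (e.g k).2) '' (chain n : Set K))

lemma chain_le (n : ℕ) : chain e V₀ n ≤ chain e V₀ (n + 1) := by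
  intro x hx
  exact Submodule.subset_span (Or.inl (Or.inl hx))

lemma chain_mono : Monotone (chain e V₀) := monotone_nat_of_le_succ (chain_le e V₀)

lemma chain_sm {κ : Cardinal.{u}} (hκ : ℵ₀ ≤ κ) (hY : Sm κ (Set.univ : Set Y))
    (h0 : Sm κ (V₀ : Set K)) (n : ℕ) : Sm κ (chain e V₀ n : Set K) := by
  induction n with
  | zero => exact h0
  | succ n ih =>
    refine Sm.span hκ ?_
    refine Sm.union hκ (Sm.union hκ ih ?_) ?_
    · exact (Sm.prod hκ hY ih).image e.lf.continuous
    · exact ih.image (continuous_snd.comp e.lg.continuous)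

/-- The limit subspace. -/
def lim : Submodule ℝ K := (⨆ n, chain e V₀ n).topologicalClosure

lemma lim_coe : (lim e V₀ : Set K) = closure (⋃ n, (chain e V₀ n : Set K)) := by
  rw [lim, Submodule.topologicalClosure_coe,
    Submodule.coe_iSup_of_directed _ (chain_mono e V₀).directed_le]

lemma lim_sm {κ : Cardinal.{u}} (hκ : ℵ₀ ≤ κ) (hY : Sm κ (Set.univ : Set Y))
    (h0 : Sm κ (V₀ : Set K)) : Sm κ (lim e V₀ : Set K) := by
  rw [lim_coe]
  exact (Sm.iUnionNat hκ (chain_sm e V₀ hκ hY h0)).closure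

lemma lim_closed : IsClosed (lim e V₀ : Set K) := Submodule.isClosed_topologicalClosure _

lemma le_lim : V₀ ≤ lim e V₀ := by
  intro x hx
  have : x ∈ closure (⋃ n, (chain e V₀ n : Set K)) :=
    subset_closure (Set.mem_iUnion.2 ⟨0, hx⟩)
  rw [← lim_coe] at this
  exact this

lemma lim_f (y : Y) {h : K} (hh : h ∈ lim e V₀) : e.f (y, h) ∈ lim e V₀ := by
  have hcl : IsClosed {h : K | e.f (y, h) ∈ (lim e V₀ : Set K)} :=
    (lim_closed e V₀).preimage (e.lf.continuous.comp (by fun_prop))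
  have hsub : (⋃ n, (chain e V₀ n : Set K)) ⊆ {h : K | e.f (y, h) ∈ (lim e V₀ : Set K)} := by
    refine Set.iUnion_subset fun n h hn => ?_
    show e.f (y, h) ∈ (lim e V₀ : Set K)
    rw [lim_coe]
    refine subset_closure (Set.mem_iUnion.2 ⟨n + 1, ?_⟩)
    exact Submodule.subset_span (Or.inl (Or.inr ⟨(y, h), ⟨Set.mem_univ _, hn⟩, rfl⟩))
  have hh' : h ∈ (lim e V₀ : Set K) := hh
  rw [lim_coe] at hh'
  exact closure_minimal hsub hcl hh'

lemma lim_g {h : K} (hh : h ∈ lim e V₀) : (e.g h).2 ∈ lim e V₀ := by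
  have hcl : IsClosed {h : K | (e.g h).2 ∈ (lim e V₀ : Set K)} :=
    (lim_closed e V₀).preimage (continuous_snd.comp e.lg.continuous)
  have hsub : (⋃ n, (chain e V₀ n : Set K)) ⊆ {h : K | (e.g h).2 ∈ (lim e V₀ : Set K)} := by
    refine Set.iUnion_subset fun n h hn => ?_
    show (e.g h).2 ∈ (lim e V₀ : Set K)
    rw [lim_coe]
    refine subset_closure (Set.mem_iUnion.2 ⟨n + 1, ?_⟩)
    exact Submodule.subset_span (Or.inr ⟨h, hn, rfl⟩)
  have hh' : h ∈ (lim e V₀ : Set K) := hh
  rw [lim_coe] at hh'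
  exact closure_minimal hsub hcl hh'

/-- The restriction of the equivalence. -/
def restr : BU (Y × lim e V₀) (lim e V₀) where
  f p := ⟨e.f (p.1, (p.2 : K)), lim_f e V₀ p.1 p.2.2⟩
  g h := ((e.g (h : K)).1, ⟨(e.g (h : K)).2, lim_g e V₀ h.2⟩)
  gf p := by
    refine Prod.ext ?_ (Subtype.ext ?_)
    · show (e.g (e.f (p.1, (p.2 : K)))).1 = p.1
      rw [e.gf]
    · show (e.g (e.f (p.1, (p.2 : K)))).2 = p.2
      rw [e.gf]
  fg h := by
    refine Subtype.ext ?_
    show e.f ((e.g (h : K)).1, (e.g (h : K)).2) = h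
    rw [Prod.mk.eta, e.fg]
  hom t ht p := by
    refine Subtype.ext ?_
    show e.f (t • p.1, t • (p.2 : K)) = t • e.f (p.1, (p.2 : K))
    rw [← e.hom t ht]; rfl
  lf := by
    intro ε hε
    obtain ⟨C, hC, h⟩ := e.lf ε hε
    exact ⟨C, hC, fun a b => h (a.1, (a.2 : K)) (b.1, (b.2 : K))⟩
  lg := by
    intro ε hε
    obtain ⟨C, hC, h⟩ := e.lg ε hε
    exact ⟨C, hC, fun a b => h (a : K) (b : K)⟩

end closing

/-- Reduction of the density character. -/
theorem reduce {Y K H : Type u} [NormedAddCommGroup Y] [NormedSpace ℝ Y]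
    [NormedAddCommGroup K] [InnerProductSpace ℝ K] [CompleteSpace K]
    [NormedAddCommGroup H] [InnerProductSpace ℝ H] [CompleteSpace H]
    (hH : ¬ FiniteDimensional ℝ H) (h : Eqv (Y × K) K) (ι : H →ₗᵢ[ℝ] K)
    (hd : ∃ D : Set Y, Dense D ∧ ∃ v : D → H, Orthonormal ℝ v) : Eqv (Y × H) H := by
  obtain ⟨e⟩ := h
  obtain ⟨w, b, -⟩ := exists_hilbertBasis ℝ H
  have hw : Infinite w := by
    by_contra hcon
    rw [not_infinite_iff_finite] at hcon
    haveI := Fintype.ofFinite w
    exact hH (b.toOrthonormalBasis.toBasis.finiteDimensional_of_finite)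
  set κ := #w with hκdef
  have hκ : ℵ₀ ≤ κ := aleph0_le_mk w
  have hHs : Sm κ (Set.univ : Set H) := by
    have h1 : Sm κ (Set.range b) := ⟨Set.range b, mk_range_le, subset_closure⟩
    have h2 := (h1.span hκ).closure
    have h3 : closure (Submodule.span ℝ (Set.range b) : Set H) = Set.univ := by
      have := b.dense_span
      rw [← Submodule.topologicalClosure_coe, this, Submodule.top_coe]
    rwa [h3] at h2
  have hYs : Sm κ (Set.univ : Set Y) := by
    obtain ⟨D, hD, v, hv⟩ := hd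
    obtain ⟨E, hE1, hE2⟩ := hHs
    exact ⟨D, (card_orthonormal hv (fun i => hE2 (Set.mem_univ _))).trans hE1,
      by rw [hD.closure_eq]⟩
  let V₀ : Submodule ℝ K := LinearMap.range ι.toLinearMap
  have hV₀ : Sm κ (V₀ : Set K) := by
    have h1 := hHs.image ι.continuous
    refine h1.mono ?_
    rintro _ ⟨x, rfl⟩
    exact ⟨x, Set.mem_univ _, rfl⟩
  let L := lim e V₀
  have hLs : Sm κ (L : Set K) := lim_sm e V₀ hκ hYs hV₀
  haveI hLc : CompleteSpace L := (lim_closed e V₀).completeSpace_coe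
  obtain ⟨w₁, b₁, -⟩ := exists_hilbertBasis ℝ L
  -- at most κ
  have h1 : #w₁ ≤ κ := by
    obtain ⟨D, hD1, hD2⟩ := hLs
    have hv : Orthonormal ℝ (fun i => ((b₁ i : L) : K)) :=
      b₁.orthonormal.comp_linearIsometry L.subtypeₗᵢ
    exact (card_orthonormal hv (fun i => hD2 (b₁ i).2)).trans hD1
  -- the orthonormal family of size κ inside
  have hmem : ∀ x : H, ι x ∈ L := fun x => le_lim e V₀ ⟨x, rfl⟩
  let ι' : H →ₗᵢ[ℝ] L := ⟨ι.toLinearMap.codRestrict L hmem, fun x => ι.norm_map x⟩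
  have hv' : Orthonormal ℝ (fun i => ι' (b i)) := b.orthonormal.comp_linearIsometry ι'
  have h2 : κ ≤ #w₁ := by
    by_cases hw₁ : Infinite w₁
    · have hκ₁ : ℵ₀ ≤ #w₁ := aleph0_le_mk w₁
      have h3 : Sm (#w₁) (Set.univ : Set L) := by
        have h1 : Sm (#w₁) (Set.range b₁) := ⟨Set.range b₁, mk_range_le, subset_closure⟩
        have h2 := (h1.span hκ₁).closure
        have h3 : closure (Submodule.span ℝ (Set.range b₁) : Set L) = Set.univ := by
          have := b₁.dense_span
          rw [← Submodule.topologicalClosure_coe, this, Submodule.top_coe]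
        rwa [h3] at h2
      obtain ⟨D, hD1, hD2⟩ := h3
      exact (card_orthonormal hv' (fun i => hD2 (Set.mem_univ _))).trans hD1
    · exfalso
      rw [not_infinite_iff_finite] at hw₁
      haveI := Fintype.ofFinite w₁
      haveI : FiniteDimensional ℝ L :=
        b₁.toOrthonormalBasis.toBasis.finiteDimensional_of_finite
      exact hH (FiniteDimensional.of_injective ι'.toLinearMap ι'.injective)
  have h3 : #w = #w₁ := le_antisymm h2 h1
  obtain ⟨q⟩ := Cardinal.eq.1 h3
  -- a Hilbert basis of the limit indexed by w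
  have hvq : Orthonormal ℝ (fun i => b₁ (q i)) := b₁.orthonormal.comp _ q.injective
  have hsp : ⊤ ≤ (Submodule.span ℝ (Set.range (fun i => b₁ (q i)))).topologicalClosure := by
    have : Set.range (fun i => b₁ (q i)) = Set.range b₁ := q.surjective.range_comp b₁
    rw [this, b₁.dense_span]
  let b₂ : HilbertBasis w ℝ L := HilbertBasis.mk hvq hsp
  have h4 : Eqv L H := ⟨BU.ofCLE (b₂.repr.trans b.repr.symm).toContinuousLinearEquiv⟩
  exact ((Eqv.prod (Eqv.rfl' Y) h4.symm).trans ⟨restr e V₀⟩).trans h4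

end Pool.Agent.Helper29.SphU
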