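import Mathlib
import Pool.Agent.Helper29.SphU.Red
import Pool.Agent.Helper29.SphU.Emb
import Pool.Agent.Helper29.SphU.Abs

/-!
The class of Banach spaces which are absorbed by a Hilbert space.
-/

universe u

set_option linter.unusedSectionVars false

namespace Pool.Agent.Helper29.SphU

open Metric Filter Topology ENNReal Pool.Agent.Helper29.SphereUniform

/-- A Hilbert space containing two given ones. -/
lemma exists_common (H₁ H₂ : Type u) [NormedAddCommGroup H₁] [InnerProductSpace ℝ H₁]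
    [CompleteSpace H₁] [NormedAddCommGroup H₂] [InnerProductSpace ℝ H₂] [CompleteSpace H₂]
    (h : ¬ FiniteDimensional ℝ H₂) :
    ∃ (K : Type u) (_ : NormedAddCommGroup K) (_ : InnerProductSpace ℝ K),
      CompleteSpace K ∧ ¬ FiniteDimensional ℝ K ∧ Eqv (H₁ × H₂) K ∧ Nonempty (H₂ →ₗᵢ[ℝ] K) := by
  let ι : H₂ →ₗᵢ[ℝ] WithLp 2 (H₁ × H₂) :=
    { toLinearMap := (WithLp.linearEquiv 2 ℝ (H₁ × H₂)).symm.toLinearMap ∘ₗ
        LinearMap.inr ℝ H₁ H₂
      norm_map' := fun x => by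
        have : ‖(WithLp.toLp 2 ((0 : H₁), x) : WithLp 2 (H₁ × H₂))‖ = ‖x‖ := by
          rw [WithLp.prod_norm_eq_of_L2]
          simp
        exact this }
  refine ⟨WithLp 2 (H₁ × H₂), inferInstance, inferInstance, inferInstance, fun hf => ?_,
    ⟨BU.ofCLE (WithLp.prodContinuousLinearEquiv 2 ℝ H₁ H₂).symm⟩, ⟨ι⟩⟩
  exact h (FiniteDimensional.of_injective ι.toLinearMap ι.injective)

section

variable {X : Type u} [NormedAddCommGroup X] [NormedSpace ℝ X]
  {Y : Type u} [NormedAddCommGroup Y] [NormedSpace ℝ Y]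
  {Z : Type u} [NormedAddCommGroup Z] [NormedSpace ℝ Z]

/-- A larger Hilbert space absorbs as well. -/
lemma absorb_more {H₁ H₂ K : Type u} [NormedAddCommGroup H₁] [NormedSpace ℝ H₁]
    [NormedAddCommGroup H₂] [NormedSpace ℝ H₂] [NormedAddCommGroup K] [NormedSpace ℝ K]
    (h : Eqv (X × H₁) H₁) (hK : Eqv (H₁ × H₂) K) : Eqv (X × K) K :=
  (((Eqv.prod (Eqv.rfl' X) hK.symm).trans (Eqv.assoc X H₁ H₂).symm).trans
    (Eqv.prod h (Eqv.rfl' H₂))).trans hK

lemma main_one {H : Type u} [NormedAddCommGroup H] [InnerProductSpace ℝ H] [CompleteSpace H]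
    (hH : ¬ FiniteDimensional ℝ H) (h : SpheresEquivalent X H) : HilbertAbsorbed X :=
  ⟨H, inferInstance, inferInstance, inferInstance, hH, eqv_iff.1
    ((Eqv.prod (eqv_iff.2 h) (Eqv.rfl' H)).trans (H_sq (ell_hilbert hH)))⟩

lemma main_two [CompleteSpace Y] (hX : Superreflexive X) (h : HilbertAbsorbed X)
    (hs : Subquotient Y X) : Superreflexive Y ∧ HilbertAbsorbed Y := by
  obtain ⟨H, _, _, hc, hH, h1⟩ := h
  haveI := hc
  obtain ⟨h2, Q, _, _, h3⟩ := factor hX hs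
  exact ⟨h2, H, inferInstance, inferInstance, inferInstance, hH,
    eqv_iff.1 (absorb (ell_hilbert hH) (eqv_iff.2 h1) h3)⟩

lemma main_three [CompleteSpace Y] [CompleteSpace Z] (J : Y →L[ℝ] X) (T : X →L[ℝ] Z)
    (hJ : Function.Injective J) (hT : Function.Surjective T)
    (hJT : ∀ x, T x = 0 ↔ ∃ y, J y = x) (hX : Superreflexive X) (hY : HilbertAbsorbed Y)
    (hZ : HilbertAbsorbed Z) : HilbertAbsorbed X := by
  obtain ⟨H₁, _, _, hc₁, hH₁, h1⟩ := hY
  obtain ⟨H₂, _, _, hc₂, hH₂, h2⟩ := hZ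
  haveI := hc₁
  haveI := hc₂
  obtain ⟨K, _, _, hc, hK, h3, -⟩ := exists_common H₁ H₂ hH₂
  haveI := hc
  have hYK : Eqv (Y × K) K := absorb_more (eqv_iff.2 h1) h3
  have hZK : Eqv (Z × K) K := absorb_more (eqv_iff.2 h2) ((Eqv.comm H₂ H₁).trans h3)
  exact ⟨K, inferInstance, inferInstance, inferInstance, hK,
    eqv_iff.1 (extend (ell_hilbert hK) hYK hZK (sr_exact hX J T hJ hT hJT))⟩

lemma finRep_trans {X' : Type u} [NormedAddCommGroup X'] [NormedSpace ℝ X'] (e : X ≃L[ℝ] X')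
    (h : FinitelyRepresentable Y X) : FinitelyRepresentable Y X' := by
  obtain ⟨K, hK⟩ := h
  refine ⟨‖(e.symm : X' →L[ℝ] X)‖ * ‖(e : X →L[ℝ] X')‖ * K, fun E hE => ?_⟩
  obtain ⟨J, hJ⟩ := hK E hE
  refine ⟨‖(e.symm : X' →L[ℝ] X)‖ • (e.toLinearEquiv.toLinearMap ∘ₗ J), fun v => ?_⟩
  have h0 : (‖(e.symm : X' →L[ℝ] X)‖ • (e.toLinearEquiv.toLinearMap ∘ₗ J)) v
      = ‖(e.symm : X' →L[ℝ] X)‖ • e (J v) := rfl
  rw [h0, norm_smul, norm_norm]
  have h1 : ‖J v‖ ≤ ‖(e.symm : X' →L[ℝ] X)‖ * ‖e (J v)‖ := by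
    have := (e.symm : X' →L[ℝ] X).le_opNorm (e (J v))
    simpa using this
  have h2 : ‖e (J v)‖ ≤ ‖(e : X →L[ℝ] X')‖ * ‖J v‖ := (e : X →L[ℝ] X').le_opNorm (J v)
  refine ⟨(hJ v).1.trans h1, ?_⟩
  have h3 := (hJ v).2
  calc ‖(e.symm : X' →L[ℝ] X)‖ * ‖e (J v)‖
      ≤ ‖(e.symm : X' →L[ℝ] X)‖ * (‖(e : X →L[ℝ] X')‖ * (K * ‖v‖)) :=
        mul_le_mul_of_nonneg_left (h2.trans (mul_le_mul_of_nonneg_left h3 (norm_nonneg _)))
          (norm_nonneg _)
    _ = ‖(e.symm : X' →L[ℝ] X)‖ * ‖(e : X →L[ℝ] X')‖ * K * ‖v‖ := by ring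

lemma main_four [CompleteSpace Y] (hX : Superreflexive X) (h : HilbertAbsorbed X)
    (hs : FinitelyRepresentable Y X) : Superreflexive Y ∧ HilbertAbsorbed Y := by
  obtain ⟨H, _, _, hc, hH, h1⟩ := h
  haveI := hc
  obtain ⟨X', _, _, hc', huc, ⟨e⟩⟩ := hX
  haveI := hc'
  haveI := huc
  set U := tailU Y with hU
  have hsub : Subquotient Y (UP U X') := subquotient_ultrapower (finRep_trans e hs)
  haveI : UniformConvexSpace (UP U X') := up_uc U
  have hsr : Superreflexive (UP U X') :=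
    ⟨UP U X', inferInstance, inferInstance, inferInstance, inferInstance,
      ⟨ContinuousLinearEquiv.refl ℝ _⟩⟩
  obtain ⟨h2, Q, _, _, h3⟩ := factor hsr hsub
  letI : InnerProductSpace ℝ (UP U H) := upInner U
  have hinf : ¬ FiniteDimensional ℝ (UP U H) := by
    intro hf
    exact hH (FiniteDimensional.of_injective (diag U H).toLinearMap (diag U H).injective)
  have h4 : Eqv (UP U X × UP U H) (UP U H) := by
    have a1 : Eqv (UP U (X × H)) (UP U H) := (eqv_iff.2 h1).map (BU.up U)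
    have a2 : Eqv (UP U (X × H)) (UP U X × UP U H) := ⟨upProd U X H⟩
    exact a2.symm.trans a1
  have h5 : Eqv (UP U X) (UP U X') := ⟨BU.up U (BU.ofCLE e)⟩
  have h6 : Eqv (UP U X' × UP U H) (UP U H) := (Eqv.prod h5.symm (Eqv.rfl' _)).trans h4
  refine ⟨h2, UP U H, inferInstance, inferInstance, inferInstance, hinf, ?_⟩
  exact eqv_iff.1 (absorb (ell_hilbert hinf) h6 h3)

lemma main_five {H : Type u} [NormedAddCommGroup H] [InnerProductSpace ℝ H] [CompleteSpace H]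
    (hH : ¬ FiniteDimensional ℝ H) (h : HilbertAbsorbed X) (hd : DensityLE X H) :
    SpheresEquivalent (X × H) H := by
  obtain ⟨H₀, _, _, hc, -, h1⟩ := h
  haveI := hc
  obtain ⟨K, _, _, hcK, hK, h3, ⟨ι⟩⟩ := exists_common H₀ H hH
  haveI := hcK
  exact eqv_iff.1 (reduce hH (absorb_more (eqv_iff.2 h1) h3) ι hd)

lemma main_six {W : Type u} [NormedAddCommGroup W] [NormedSpace ℝ W] [CompleteSpace W]
    {H : Type u} [NormedAddCommGroup H] [InnerProductSpace ℝ H] [CompleteSpace H]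
    (hH : ¬ FiniteDimensional ℝ H) (hX : Superreflexive X) (h : HilbertAbsorbed X)
    (hd : DensityLE X H) (hs : Subquotient W X) (hW : SpheresEquivalent W H) :
    SpheresEquivalent X H := by
  obtain ⟨-, Q, _, _, h2⟩ := factor hX hs
  exact eqv_iff.1 (conclude (ell_hilbert hH) (eqv_iff.2 (main_five hH h hd)) (eqv_iff.2 hW) h2)

end

end Pool.Agent.Helper29.SphU
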