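import Mathlib
import Pool.Agent.Helper29.SphU.Main

/-!
Hilbertian sums of uniformly convex spaces are uniformly convex (Day).
-/

universe u

set_option linter.unusedSectionVars false

namespace Pool.Agent.Helper29.SphU

open Metric Filter Topology ENNReal Pool.Agent.Helper29.SphereUniform

/-- The pointwise inequality behind Day's theorem. -/
lemma day_point {X : Type*} [NormedAddCommGroup X] [NormedSpace ℝ X] [UniformConvexSpace X]
    {ε : ℝ} (hε : 0 < ε) : ∃ θ : ℝ, 0 < θ ∧ ∀ a b : X, ε * (‖a‖ + ‖b‖) ≤ ‖a - b‖ →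
      ‖a + b‖ ^ 2 ≤ (1 - θ) * (2 * (‖a‖ ^ 2 + ‖b‖ ^ 2)) := by
  obtain ⟨δ, hδ, h⟩ := exists_forall_closed_ball_dist_add_le_two_sub X hε
  set d := min δ 1 with hd
  have hd0 : 0 < d := lt_min hδ one_pos
  have hd1 : d ≤ 1 := min_le_right _ _
  have hdδ : d ≤ δ := min_le_left _ _
  refine ⟨d ^ 2 / 64, by positivity, fun a b hab => ?_⟩
  -- normalise so that the larger norm is attained by `a`
  have key : ∀ a b : X, ‖b‖ ≤ ‖a‖ → ε * (‖a‖ + ‖b‖) ≤ ‖a - b‖ →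
      ‖a + b‖ ^ 2 ≤ (1 - d ^ 2 / 64) * (2 * (‖a‖ ^ 2 + ‖b‖ ^ 2)) := by
    intro a b hba hab
    rcases (norm_nonneg a).eq_or_lt with h0 | h0
    · have ha : ‖a‖ = 0 := h0.symm
      have hb : ‖b‖ = 0 := le_antisymm (hba.trans ha.le) (norm_nonneg b)
      have : ‖a + b‖ = 0 := le_antisymm ((norm_add_le a b).trans (by rw [ha, hb]; norm_num))
        (norm_nonneg _)
      rw [this, ha, hb]; norm_num
    set M := ‖a‖ with hM
    set β := ‖b‖ with hβ
    have hβ0 : 0 ≤ β := norm_nonneg b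
    have htri : ‖a + b‖ ≤ M + β := norm_add_le a b
    have hn := norm_nonneg (a + b)
    by_cases hcase : β ≤ (1 - d / 4) * M
    · -- the norms differ
      have h1 : ‖a + b‖ ^ 2 ≤ (M + β) ^ 2 := pow_le_pow_left₀ hn htri 2
      have h2 : d / 4 * M ≤ M - β := by linarith
      have h3 : (d / 4 * M) ^ 2 ≤ (M - β) ^ 2 := pow_le_pow_left₀ (by positivity) h2 2
      have h4 : M ^ 2 + β ^ 2 ≤ 2 * M ^ 2 := by nlinarith
      nlinarith
    · rw [not_le] at hcase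
      have e1 : ‖M⁻¹ • a‖ ≤ 1 := by
        rw [norm_smul, norm_inv, Real.norm_eq_abs, abs_of_pos h0, ← hM,
          inv_mul_cancel₀ h0.ne']
      have e2 : ‖M⁻¹ • b‖ ≤ 1 := by
        rw [norm_smul, norm_inv, Real.norm_eq_abs, abs_of_pos h0, inv_mul_le_iff₀ h0, mul_one]
        exact hba
      have e3 : ε ≤ ‖M⁻¹ • a - M⁻¹ • b‖ := by
        rw [← smul_sub, norm_smul, norm_inv, Real.norm_eq_abs, abs_of_pos h0,
          le_inv_mul_iff₀ h0]
        nlinarith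
      have e4 := h e1 e2 e3
      rw [← smul_add, norm_smul, norm_inv, Real.norm_eq_abs, abs_of_pos h0,
        inv_mul_le_iff₀ h0] at e4
      have e5 : ‖a + b‖ ≤ (2 - d) * M := by nlinarith
      have e6 : ‖a + b‖ ^ 2 ≤ ((2 - d) * M) ^ 2 := pow_le_pow_left₀ hn e5 2
      have e7 : ((1 - d / 4) * M) ^ 2 ≤ β ^ 2 :=
        pow_le_pow_left₀ (mul_nonneg (by linarith) h0.le) hcase.le 2
      have e8 : (2 - d) ^ 2 ≤ (1 - d ^ 2 / 64) * (2 * (1 + (1 - d / 4) ^ 2)) := by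
        nlinarith [sq_nonneg d, mul_nonneg hd0.le (sub_nonneg.2 hd1),
          mul_nonneg (mul_nonneg hd0.le hd0.le) (sub_nonneg.2 hd1),
          mul_nonneg (mul_nonneg (mul_nonneg hd0.le hd0.le) hd0.le) (sub_nonneg.2 hd1)]
      have e9 : 0 ≤ 1 - d ^ 2 / 64 := by nlinarith
      calc ‖a + b‖ ^ 2 ≤ (2 - d) ^ 2 * M ^ 2 := by rw [← mul_pow]; exact e6
        _ ≤ (1 - d ^ 2 / 64) * (2 * (1 + (1 - d / 4) ^ 2)) * M ^ 2 :=
            mul_le_mul_of_nonneg_right e8 (by positivity)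
        _ = (1 - d ^ 2 / 64) * (2 * (M ^ 2 + ((1 - d / 4) * M) ^ 2)) := by ring
        _ ≤ (1 - d ^ 2 / 64) * (2 * (M ^ 2 + β ^ 2)) :=
            mul_le_mul_of_nonneg_left (by linarith) e9
  rcases le_total ‖b‖ ‖a‖ with hba | hba
  · exact key a b hba hab
  · have := key b a hba (by rw [norm_sub_rev, add_comm ‖b‖]; exact hab)
    rw [add_comm a b, add_comm (‖a‖ ^ 2)]
    exact this

/-- Day's theorem for the countable Hilbertian sum. -/
theorem ell_uc (X : Type*) [NormedAddCommGroup X] [NormedSpace ℝ X] [UniformConvexSpace X] :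
    UniformConvexSpace (Ell X) := by
  refine ⟨fun ε hε => ?_⟩
  obtain ⟨θ, hθ, h⟩ := day_point (X := X) (ε := ε / 4) (by positivity)
  set η := min 1 (θ * ε ^ 2 / 4) with hη
  have hη0 : 0 < η := lt_min one_pos (by positivity)
  have hη1 : η ≤ 1 := min_le_left _ _
  have hη2 : η ≤ θ * ε ^ 2 / 4 := min_le_right _ _
  refine ⟨η / 4, by positivity, fun x hx y hy hxy => ?_⟩
  have hsx := ell_hasSum x
  have hsy := ell_hasSum y
  have hsd := ell_hasSum (x - y)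
  rw [hx] at hsx
  rw [hy] at hsy
  -- pointwise: gain at least θ * (‖x n - y n‖² / 2 - (ε²/16) * (‖x n‖ + ‖y n‖)²)
  have hpt : ∀ n, ‖x n + y n‖ ^ 2 ≤ 2 * (‖x n‖ ^ 2 + ‖y n‖ ^ 2)
      - θ * (‖x n - y n‖ ^ 2 - (ε ^ 2 / 8) * (‖x n‖ ^ 2 + ‖y n‖ ^ 2)) := by
    intro n
    set a := x n
    set b := y n
    have hna := norm_nonneg a
    have hnb := norm_nonneg b
    have htri : ‖a - b‖ ^ 2 ≤ 2 * (‖a‖ ^ 2 + ‖b‖ ^ 2) := by
      have := pow_le_pow_left₀ (norm_nonneg _) (norm_sub_le a b) 2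
      nlinarith [sq_nonneg (‖a‖ - ‖b‖)]
    by_cases hc : ε / 4 * (‖a‖ + ‖b‖) ≤ ‖a - b‖
    · have h1 := h a b hc
      have h2 : 0 ≤ θ * (ε ^ 2 / 8 * (‖a‖ ^ 2 + ‖b‖ ^ 2)) := by positivity
      nlinarith [mul_le_mul_of_nonneg_left htri hθ.le]
    · rw [not_le] at hc
      have h1 : ‖a + b‖ ^ 2 ≤ 2 * (‖a‖ ^ 2 + ‖b‖ ^ 2) := by
        have := pow_le_pow_left₀ (norm_nonneg _) (norm_add_le a b) 2
        nlinarith [sq_nonneg (‖a‖ - ‖b‖)]
      have h2 : ‖a - b‖ ^ 2 ≤ (ε / 4 * (‖a‖ + ‖b‖)) ^ 2 :=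
        pow_le_pow_left₀ (norm_nonneg _) hc.le 2
      have h3 : (ε / 4 * (‖a‖ + ‖b‖)) ^ 2 ≤ ε ^ 2 / 8 * (‖a‖ ^ 2 + ‖b‖ ^ 2) := by
        nlinarith [sq_nonneg (ε * (‖a‖ - ‖b‖))]
      nlinarith [mul_nonneg hθ.le (sub_nonneg.2 (h2.trans h3))]
  have hS : ‖x + y‖ ^ 2 ≤ 2 * (1 ^ 2 + 1 ^ 2)
      - θ * (‖x - y‖ ^ 2 - (ε ^ 2 / 8) * (1 ^ 2 + 1 ^ 2)) := by
    refine norm_sq_le_of_le (((hsx.add hsy).mul_left 2).sub
      ((hsd.sub ((hsx.add hsy).mul_left (ε ^ 2 / 8))).mul_left θ)) fun n => ?_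
    exact hpt n
  have h1 : ε ^ 2 ≤ ‖x - y‖ ^ 2 := pow_le_pow_left₀ hε.le hxy 2
  have h2 : ‖x + y‖ ^ 2 ≤ 4 - η := by
    nlinarith [mul_le_mul_of_nonneg_left h1 hθ.le]
  have h3 : (4 : ℝ) - η ≤ (2 - η / 4) ^ 2 := by nlinarith
  exact (pow_le_pow_iff_left₀ (norm_nonneg _) (by linarith) two_ne_zero).1 (h2.trans h3)

section

variable {X : Type u} [NormedAddCommGroup X] [NormedSpace ℝ X]
  {Y : Type u} [NormedAddCommGroup Y] [NormedSpace ℝ Y]

lemma clm_summable (T : X →L[ℝ] Y) (x : Ell X) : Summable (fun n => ‖T (x n)‖ ^ 2) := by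
  refine Summable.of_nonneg_of_le (fun n => by positivity) (fun n => ?_)
    ((ell_summable x).mul_left (‖T‖ ^ 2))
  rw [← mul_pow]
  exact pow_le_pow_left₀ (norm_nonneg _) (T.le_opNorm (x n)) 2

/-- The coordinatewise action of a bounded linear map on the Hilbertian sums. -/
noncomputable def ellMap (T : X →L[ℝ] Y) : Ell X →L[ℝ] Ell Y :=
  LinearMap.mkContinuous
    { toFun := fun x => mkEll (fun n => T (x n)) (clm_summable T x)
      map_add' := fun x y => by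
        ext n
        rw [mkEll_apply, lp.coeFn_add, lp.coeFn_add, Pi.add_apply, Pi.add_apply, mkEll_apply,
          mkEll_apply, map_add]
      map_smul' := fun c x => by
        ext n
        rw [mkEll_apply, lp.coeFn_smul, lp.coeFn_smul, Pi.smul_apply, Pi.smul_apply, mkEll_apply,
          map_smul, RingHom.id_apply] }
    ‖T‖ (fun x => by
      have h : ‖mkEll (fun n => T (x n)) (clm_summable T x)‖ ^ 2 ≤ ‖T‖ ^ 2 * ‖x‖ ^ 2 :=
        norm_sq_le_of_le ((ell_hasSum x).mul_left (‖T‖ ^ 2)) fun n => by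
          rw [mkEll_apply, ← mul_pow]
          exact pow_le_pow_left₀ (norm_nonneg _) (T.le_opNorm (x n)) 2
      rw [← mul_pow] at h
      exact (pow_le_pow_iff_left₀ (norm_nonneg _) (by positivity) two_ne_zero).1 h)

lemma ellMap_apply (T : X →L[ℝ] Y) (x : Ell X) (n : ℕ) : ellMap T x n = T (x n) := rfl

lemma ell_superreflexive (hX : Superreflexive X) : Superreflexive (Ell X) := by
  obtain ⟨X', _, _, hc, huc, ⟨e⟩⟩ := hX
  haveI := hc
  haveI := huc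
  refine ⟨Ell X', inferInstance, inferInstance, inferInstance, ell_uc X',
    ⟨ContinuousLinearEquiv.equivOfInverse (ellMap (e : X →L[ℝ] X'))
      (ellMap (e.symm : X' →L[ℝ] X)) (fun x => ?_) (fun x => ?_)⟩⟩
  · ext n
    rw [ellMap_apply, ellMap_apply]
    exact e.symm_apply_apply (x n)
  · ext n
    rw [ellMap_apply, ellMap_apply]
    exact e.apply_symm_apply (x n)

lemma ell_absorbed (h : HilbertAbsorbed X) : HilbertAbsorbed (Ell X) := by
  obtain ⟨H, _, _, hc, hH, h1⟩ := h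
  haveI := hc
  have hE : Eqv (Ell H) H := ell_hilbert hH
  refine ⟨H, inferInstance, inferInstance, inferInstance, hH, eqv_iff.1 ?_⟩
  exact ((((Eqv.prod (Eqv.rfl' (Ell X)) hE.symm).trans (Eqv.ellProd X H).symm).trans
    (eqv_iff.2 h1).ell).trans hE)

end

end Pool.Agent.Helper29.SphU
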