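import Mathlib
import Pool.Agent.Helper29.SphU.Day

/-!
Countable `ℓ^p`-sums, `1 < p < ∞`: uniform convexity (Day) and the vector valued Mazur map.
-/

universe u

set_option linter.unusedSectionVars false

namespace Pool.Agent.Helper29.SphU

open Metric Filter Topology ENNReal Pool.Agent.Helper29.SphereUniform

section pointwise

variable {X : Type*} [NormedAddCommGroup X] [NormedSpace ℝ X]

/-- The pointwise Mazur map. -/
noncomputable def mz (r : ℝ) (a : X) : X := ‖a‖ ^ (r - 1) • a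

lemma norm_mz {r : ℝ} (hr : 0 < r) (a : X) : ‖mz r a‖ = ‖a‖ ^ r := by
  rw [mz, norm_smul, Real.norm_eq_abs, abs_of_nonneg (Real.rpow_nonneg (norm_nonneg a) _)]
  rcases (norm_nonneg a).eq_or_lt with h | h
  · rw [← h, mul_zero, Real.zero_rpow hr.ne']
  · rw [← Real.rpow_add_one h.ne']; congr 1; ring

lemma mz_mz {r s : ℝ} (hr : 0 < r) (hrs : r * s = 1) (a : X) : mz s (mz r a) = a := by
  rcases (norm_nonneg a).eq_or_lt with h | h
  · have ha : a = 0 := norm_eq_zero.1 h.symm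
    rw [ha, mz, mz, smul_zero, smul_zero]
  · have h1 : ‖mz r a‖ ^ (s - 1) = ‖a‖ ^ (r * (s - 1)) := by
      rw [norm_mz hr, ← Real.rpow_mul h.le]
    rw [mz, h1, mz, smul_smul, ← Real.rpow_add h]
    have h2 : r * (s - 1) + (r - 1) = 0 := by nlinarith
    rw [h2, Real.rpow_zero, one_smul]

/-- The pointwise estimate for the Mazur map. -/
lemma mz_est {r q : ℝ} (hr : 0 < r) (hq : 0 < q) {ε : ℝ} (hε : 0 < ε) :
    ∃ C : ℝ, 0 ≤ C ∧ ∀ a b : X, ‖mz r a - mz r b‖ ^ q
      ≤ ε * (‖a‖ ^ (r * q) + ‖b‖ ^ (r * q)) + C * ‖a - b‖ ^ (r * q) := by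
  set κ := ε ^ (1 / q) / 2 with hκ
  have hκ0 : 0 < κ := by positivity
  -- continuity of the power at one
  have hcont : ContinuousAt (fun t : ℝ => t ^ (r - 1)) 1 :=
    Real.continuousAt_rpow_const 1 (r - 1) (Or.inl one_ne_zero)
  obtain ⟨δ₁, hδ₁, h1⟩ := Metric.continuousAt_iff.1 hcont κ hκ0
  set δ := min (min (δ₁ / 2) κ) (1 / 2) with hδ
  have hδ0 : 0 < δ := by positivity
  have hδ2 : δ ≤ 1 / 2 := min_le_right _ _
  have hδκ : δ ≤ κ := (min_le_left _ _).trans (min_le_right _ _)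
  have hδδ : δ < δ₁ := by
    have : δ ≤ δ₁ / 2 := (min_le_left _ _).trans (min_le_left _ _)
    linarith
  refine ⟨2 ^ q / δ ^ (r * q), by positivity, ?_⟩
  have key : ∀ a b : X, ‖b‖ ≤ ‖a‖ → ‖mz r a - mz r b‖ ^ q
      ≤ ε * (‖a‖ ^ (r * q) + ‖b‖ ^ (r * q)) + 2 ^ q / δ ^ (r * q) * ‖a - b‖ ^ (r * q) := by
    intro a b hba
    have hb0 : 0 ≤ ε * ‖b‖ ^ (r * q) := by positivity
    rcases (norm_nonneg a).eq_or_lt with h0 | h0
    · have ha : a = 0 := norm_eq_zero.1 h0.symm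
      have hb : b = 0 := norm_eq_zero.1 (le_antisymm (hba.trans h0.symm.le) (norm_nonneg b))
      rw [ha, hb, sub_self, norm_zero, Real.zero_rpow hq.ne']
      positivity
    set M := ‖a‖ with hM
    by_cases hc : δ * M ≤ ‖a - b‖
    · have e1 : ‖mz r a - mz r b‖ ≤ 2 * M ^ r := by
        refine (norm_sub_le _ _).trans ?_
        rw [norm_mz hr, norm_mz hr]
        have := Real.rpow_le_rpow (norm_nonneg b) hba hr.le
        linarith
      have e2 : ‖mz r a - mz r b‖ ^ q ≤ (2 * M ^ r) ^ q :=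
        Real.rpow_le_rpow (norm_nonneg _) e1 hq.le
      have e3 : (2 * M ^ r) ^ q = 2 ^ q * M ^ (r * q) := by
        rw [Real.mul_rpow (by norm_num) (by positivity), ← Real.rpow_mul h0.le]
      have e4 : δ ^ (r * q) * M ^ (r * q) ≤ ‖a - b‖ ^ (r * q) := by
        rw [← Real.mul_rpow hδ0.le h0.le]
        exact Real.rpow_le_rpow (by positivity) hc (by positivity)
      have e5 : 2 ^ q * M ^ (r * q) ≤ 2 ^ q / δ ^ (r * q) * ‖a - b‖ ^ (r * q) := by
        rw [div_mul_eq_mul_div, le_div_iff₀ (by positivity)]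
        have : (2 : ℝ) ^ q * (δ ^ (r * q) * M ^ (r * q)) ≤ 2 ^ q * ‖a - b‖ ^ (r * q) :=
          mul_le_mul_of_nonneg_left e4 (by positivity)
        linarith
      have e6 : 0 ≤ ε * (M ^ (r * q) + ‖b‖ ^ (r * q)) := by positivity
      linarith [e3 ▸ e2]
    · rw [not_le] at hc
      have hb1 : M - ‖b‖ ≤ δ * M := by
        have := norm_sub_norm_le a b
        linarith
      have hbp : 0 < ‖b‖ := by nlinarith
      set β := ‖b‖ / M with hβ
      have hβM : ‖b‖ = β * M := by rw [hβ]; field_simp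
      have hβ0 : 0 < β := by positivity
      have hβ1 : β ≤ 1 := by rw [hβ, div_le_one h0]; exact hba
      have hβ2 : 1 - β ≤ δ := by
        have : (1 - β) * M ≤ δ * M := by rw [sub_mul, one_mul, ← hβM]; exact hb1
        exact le_of_mul_le_mul_right this h0
      have e1 : |β ^ (r - 1) - 1| < κ := by
        have h2 : dist β 1 < δ₁ := by
          rw [Real.dist_eq, abs_sub_comm, abs_of_nonneg (by linarith)]
          linarith
        have h3 := h1 h2
        rwa [Real.dist_eq, Real.one_rpow] at h3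
      have e2 : ‖mz r a - mz r b‖ ≤ 2 * κ * M ^ r := by
        have s1 : mz r a - mz r b = M ^ (r - 1) • (a - b) + (M ^ (r - 1) - ‖b‖ ^ (r - 1)) • b := by
          rw [mz, mz, smul_sub, sub_smul]; abel
        rw [s1]
        refine (norm_add_le _ _).trans ?_
        rw [norm_smul, norm_smul, Real.norm_eq_abs, Real.norm_eq_abs,
          abs_of_nonneg (Real.rpow_nonneg h0.le _)]
        have s2 : M ^ (r - 1) * ‖a - b‖ ≤ κ * M ^ r := by
          have t1 : M ^ r = M ^ (r - 1) * M := by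
            rw [← Real.rpow_add_one h0.ne']; congr 1; ring
          rw [t1]
          have t2 : ‖a - b‖ ≤ κ * M := hc.le.trans (mul_le_mul_of_nonneg_right hδκ h0.le)
          have t3 : 0 ≤ M ^ (r - 1) := by positivity
          nlinarith [mul_le_mul_of_nonneg_left t2 t3]
        have s3 : |M ^ (r - 1) - ‖b‖ ^ (r - 1)| * ‖b‖ ≤ κ * M ^ r := by
          have t1 : ‖b‖ ^ (r - 1) = β ^ (r - 1) * M ^ (r - 1) := by
            rw [hβM, Real.mul_rpow hβ0.le h0.le]
          have t2 : M ^ (r - 1) - ‖b‖ ^ (r - 1) = -(β ^ (r - 1) - 1) * M ^ (r - 1) := by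
            rw [t1]; ring
          rw [t2, abs_mul, abs_neg, abs_of_nonneg (Real.rpow_nonneg h0.le (r - 1)), mul_assoc]
          have t3 : M ^ (r - 1) * ‖b‖ ≤ M ^ r := by
            have t4 : M ^ r = M ^ (r - 1) * M := by
              rw [← Real.rpow_add_one h0.ne']; congr 1; ring
            rw [t4]
            exact mul_le_mul_of_nonneg_left hba (Real.rpow_nonneg h0.le _)
          exact mul_le_mul e1.le t3 (by positivity) hκ0.le
        linarith
      have e3 : ‖mz r a - mz r b‖ ^ q ≤ (2 * κ * M ^ r) ^ q :=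
        Real.rpow_le_rpow (norm_nonneg _) e2 hq.le
      have e4 : (2 * κ * M ^ r) ^ q = ε * M ^ (r * q) := by
        rw [Real.mul_rpow (by positivity) (by positivity), ← Real.rpow_mul h0.le]
        congr 1
        rw [hκ, mul_div_cancel₀ _ (two_ne_zero), ← Real.rpow_mul hε.le, one_div,
          inv_mul_cancel₀ hq.ne', Real.rpow_one]
      have e5 : 0 ≤ 2 ^ q / δ ^ (r * q) * ‖a - b‖ ^ (r * q) := by positivity
      rw [e4] at e3
      linarith
  intro a b
  rcases le_total ‖b‖ ‖a‖ with h | h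
  · exact key a b h
  · have := key b a h
    rw [norm_sub_rev (mz r a), norm_sub_rev a, add_comm (‖a‖ ^ (r * q))]
    exact this

/-- The pointwise inequality behind Day's theorem, general exponent. -/
lemma day_point_rpow [UniformConvexSpace X] {p : ℝ} (hp : 1 < p) {ε : ℝ} (hε : 0 < ε) :
    ∃ θ : ℝ, 0 < θ ∧ ∀ a b : X, ε * (‖a‖ + ‖b‖) ≤ ‖a - b‖ →
      ‖a + b‖ ^ p ≤ (1 - θ) * (2 ^ (p - 1) * (‖a‖ ^ p + ‖b‖ ^ p)) := by
  have hp0 : 0 < p := by linarith
  obtain ⟨δ, hδ, h⟩ := exists_forall_closed_ball_dist_add_le_two_sub X hε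
  set d := min δ 1 with hd
  have hd0 : 0 < d := lt_min hδ one_pos
  have hd1 : d ≤ 1 := min_le_right _ _
  have hdδ : d ≤ δ := min_le_left _ _
  set c := (1 - d / 2) ^ p with hc
  have hc0 : 0 ≤ c := Real.rpow_nonneg (by linarith) _
  have hc1 : c < 1 := Real.rpow_lt_one (by linarith) (by linarith) hp0
  -- choice of eta
  have hcont : ContinuousAt (fun t : ℝ => (1 + c) / 2 * ((1 + (1 - t) ^ p) / 2)) 0 := by
    have h1 : ContinuousAt (fun t : ℝ => (1 - t) ^ p) 0 := by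
      refine ContinuousAt.rpow_const (by fun_prop) (Or.inr hp0.le)
    exact (continuousAt_const.mul ((continuousAt_const.add h1).div_const 2))
  have hval : c < (1 + c) / 2 * ((1 + (1 - (0 : ℝ)) ^ p) / 2) := by
    rw [sub_zero, Real.one_rpow]; linarith
  have hev := hcont.eventually (lt_mem_nhds hval)
  obtain ⟨η₀, hη₀, hη⟩ := Metric.eventually_nhds_iff.1 hev
  set η := min (η₀ / 2) (1 / 2) with hηd
  have hη0 : 0 < η := by positivity
  have hη2 : η ≤ 1 / 2 := min_le_right _ _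
  have hηη : c < (1 + c) / 2 * ((1 + (1 - η) ^ p) / 2) := by
    apply hη
    rw [Real.dist_eq, sub_zero, abs_of_pos hη0]
    have : η ≤ η₀ / 2 := min_le_left _ _
    linarith
  -- the norms differ
  have hstrict : ∀ β : ℝ, 0 ≤ β → β < 1 → (1 + β) ^ p < 2 ^ (p - 1) * (1 + β ^ p) := by
    intro β hβ0 hβ1
    have hs := (strictConvexOn_rpow hp).2 (Set.mem_Ici.2 zero_le_one) (Set.mem_Ici.2 hβ0)
      hβ1.ne' (show (0 : ℝ) < 1 / 2 by norm_num) (show (0 : ℝ) < 1 / 2 by norm_num) (by norm_num)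
    simp only [smul_eq_mul, Real.one_rpow] at hs
    have e1 : (1 / 2 * 1 + 1 / 2 * β : ℝ) = (1 + β) / 2 := by ring
    rw [e1, Real.div_rpow (by linarith) (by norm_num), div_lt_iff₀ (by positivity)] at hs
    have e2 : (2 : ℝ) ^ p = 2 ^ (p - 1) * 2 := by
      rw [← Real.rpow_add_one (by norm_num)]; congr 1; ring
    rw [e2] at hs
    nlinarith
  have hcomp : IsCompact (Set.Icc (0 : ℝ) (1 - η)) := isCompact_Icc
  have hne : (Set.Icc (0 : ℝ) (1 - η)).Nonempty := ⟨0, le_rfl, by linarith⟩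
  have hfc : ContinuousOn (fun β : ℝ => (1 + β) ^ p / (2 ^ (p - 1) * (1 + β ^ p)))
      (Set.Icc (0 : ℝ) (1 - η)) := by
    refine ContinuousOn.div ?_ ?_ ?_
    · exact ContinuousOn.rpow_const (by fun_prop) (fun x _ => Or.inr hp0.le)
    · exact continuousOn_const.mul (continuousOn_const.add
        (ContinuousOn.rpow_const continuousOn_id (fun x _ => Or.inr hp0.le)))
    · intro x hx
      have : 0 ≤ x ^ p := Real.rpow_nonneg hx.1 _
      positivity
  obtain ⟨β₀, hβ₀, hmax⟩ := hcomp.exists_isMaxOn hne hfc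
  set m := (1 + β₀) ^ p / (2 ^ (p - 1) * (1 + β₀ ^ p)) with hm
  have hm1 : m < 1 := by
    have h0 : 0 ≤ β₀ ^ p := Real.rpow_nonneg hβ₀.1 _
    rw [hm, div_lt_one (by positivity)]
    exact hstrict β₀ hβ₀.1 (by linarith [hβ₀.2])
  refine ⟨min (1 - m) ((1 - c) / 2), lt_min (by linarith) (by linarith), ?_⟩
  set θ := min (1 - m) ((1 - c) / 2) with hθ
  have hθ1 : θ ≤ 1 - m := min_le_left _ _
  have hθ2 : θ ≤ (1 - c) / 2 := min_le_right _ _
  have key : ∀ a b : X, ‖b‖ ≤ ‖a‖ → ε * (‖a‖ + ‖b‖) ≤ ‖a - b‖ →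
      ‖a + b‖ ^ p ≤ (1 - θ) * (2 ^ (p - 1) * (‖a‖ ^ p + ‖b‖ ^ p)) := by
    intro a b hba hab
    rcases (norm_nonneg a).eq_or_lt with h0 | h0
    · have ha : a = 0 := norm_eq_zero.1 h0.symm
      have hb : b = 0 := norm_eq_zero.1 (le_antisymm (hba.trans h0.symm.le) (norm_nonneg b))
      rw [ha, hb, add_zero, norm_zero, Real.zero_rpow hp0.ne']
      simp
    set M := ‖a‖ with hM
    set β := ‖b‖ / M with hβ
    have hβM : ‖b‖ = β * M := by rw [hβ]; field_simp
    have hβ0 : 0 ≤ β := by positivity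
    have hβ1 : β ≤ 1 := by rw [hβ, div_le_one h0]; exact hba
    have hβp : 0 ≤ β ^ p := Real.rpow_nonneg hβ0 _
    have hMp : 0 < M ^ p := Real.rpow_pos_of_pos h0 _
    have hsum : M ^ p + ‖b‖ ^ p = (1 + β ^ p) * M ^ p := by
      rw [hβM, Real.mul_rpow hβ0 h0.le]; ring
    rw [hsum]
    have h2p : (0 : ℝ) < 2 ^ (p - 1) := by positivity
    by_cases hcase : β ≤ 1 - η
    · have h1 := hmax (show β ∈ Set.Icc (0 : ℝ) (1 - η) from ⟨hβ0, hcase⟩)
      have h2 : (1 + β) ^ p ≤ m * (2 ^ (p - 1) * (1 + β ^ p)) := by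
        have h3 : (1 + β) ^ p / (2 ^ (p - 1) * (1 + β ^ p)) ≤ m := h1
        rwa [div_le_iff₀ (by positivity)] at h3
      have h3 : ‖a + b‖ ≤ (1 + β) * M := by
        have := norm_add_le a b
        rw [hβM] at this
        linarith
      have h4 : ‖a + b‖ ^ p ≤ (1 + β) ^ p * M ^ p := by
        rw [← Real.mul_rpow (by positivity) h0.le]
        exact Real.rpow_le_rpow (norm_nonneg _) h3 hp0.le
      have h5 : (1 + β) ^ p ≤ (1 - θ) * (2 ^ (p - 1) * (1 + β ^ p)) :=
        h2.trans (mul_le_mul_of_nonneg_right (by linarith) (by positivity))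
      calc ‖a + b‖ ^ p ≤ (1 + β) ^ p * M ^ p := h4
        _ ≤ (1 - θ) * (2 ^ (p - 1) * (1 + β ^ p)) * M ^ p :=
            mul_le_mul_of_nonneg_right h5 hMp.le
        _ = (1 - θ) * (2 ^ (p - 1) * ((1 + β ^ p) * M ^ p)) := by ring
    · rw [not_le] at hcase
      have e1 : ‖M⁻¹ • a‖ ≤ 1 := by
        rw [norm_smul, norm_inv, Real.norm_eq_abs, abs_of_pos h0, ← hM,
          inv_mul_cancel₀ h0.ne']
      have e2 : ‖M⁻¹ • b‖ ≤ 1 := by
        rw [norm_smul, norm_inv, Real.norm_eq_abs, abs_of_pos h0, inv_mul_le_iff₀ h0, mul_one]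
        exact hba
      have e3 : ε ≤ ‖M⁻¹ • a - M⁻¹ • b‖ := by
        rw [← smul_sub, norm_smul, norm_inv, Real.norm_eq_abs, abs_of_pos h0,
          le_inv_mul_iff₀ h0]
        nlinarith [norm_nonneg b]
      have e4 := h e1 e2 e3
      rw [← smul_add, norm_smul, norm_inv, Real.norm_eq_abs, abs_of_pos h0,
        inv_mul_le_iff₀ h0] at e4
      have e5 : ‖a + b‖ ≤ 2 * (1 - d / 2) * M := by nlinarith
      have e6 : ‖a + b‖ ^ p ≤ 2 ^ p * c * M ^ p := by
        rw [hc, ← Real.mul_rpow (by norm_num) (by linarith), ← Real.mul_rpow (by nlinarith) h0.le]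
        exact Real.rpow_le_rpow (norm_nonneg _) e5 hp0.le
      have e7 : (1 - η) ^ p ≤ β ^ p := Real.rpow_le_rpow (by linarith) hcase.le hp0.le
      have e8 : (2 : ℝ) ^ p = 2 ^ (p - 1) * 2 := by
        rw [← Real.rpow_add_one (by norm_num)]; congr 1; ring
      have e9 : 2 ^ p * c ≤ (1 - θ) * (2 ^ (p - 1) * (1 + β ^ p)) := by
        have s1 : c ≤ (1 + c) / 2 * ((1 + β ^ p) / 2) :=
          hηη.le.trans (mul_le_mul_of_nonneg_left (by linarith) (by positivity))
        have s2 : (1 + c) / 2 * ((1 + β ^ p) / 2) ≤ (1 - θ) * ((1 + β ^ p) / 2) :=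
          mul_le_mul_of_nonneg_right (by linarith) (by positivity)
        have s3 := mul_le_mul_of_nonneg_left (s1.trans s2) (show (0 : ℝ) ≤ 2 ^ p by positivity)
        rw [e8] at s3 ⊢
        nlinarith [s3]
      calc ‖a + b‖ ^ p ≤ 2 ^ p * c * M ^ p := e6
        _ ≤ (1 - θ) * (2 ^ (p - 1) * (1 + β ^ p)) * M ^ p :=
            mul_le_mul_of_nonneg_right e9 hMp.le
        _ = (1 - θ) * (2 ^ (p - 1) * ((1 + β ^ p) * M ^ p)) := by ring
  intro a b hab
  rcases le_total ‖b‖ ‖a‖ with hba | hba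
  · exact key a b hba hab
  · have := key b a hba (by rw [norm_sub_rev, add_comm ‖b‖]; exact hab)
    rw [add_comm a b, add_comm (‖a‖ ^ p)]
    exact this

end pointwise

end Pool.Agent.Helper29.SphU
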