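import Mathlib
import Pool.Agent.Helper29.SphU.LpSum

/-!
Countable `ℓ^p`-sums, `1 < p < ∞`: they are uniformly convex, and their spheres are uniformly
homeomorphic to the spheres of the Hilbertian sums.
-/

universe u

set_option linter.unusedSectionVars false

namespace Pool.Agent.Helper29.SphU

open Metric Filter Topology ENNReal Pool.Agent.Helper29.SphereUniform

section

variable {X : Type u} [NormedAddCommGroup X] [NormedSpace ℝ X]
  {Y : Type u} [NormedAddCommGroup Y] [NormedSpace ℝ Y]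
  {p : ℝ≥0∞} [hp1 : Fact (1 ≤ p)] (hpt : p ≠ ∞)

include hp1 hpt in
lemma toReal_pos' : 0 < p.toReal :=
  ENNReal.toReal_pos (zero_lt_one.trans_le hp1.out).ne' hpt

lemma rpow_le_of_le (hpt : p ≠ ∞) {x : lp (fun _ : ℕ => X) p} {g : ℕ → ℝ} {S : ℝ}
    (hg : HasSum g S) (h : ∀ n, ‖x n‖ ^ p.toReal ≤ g n) : ‖x‖ ^ p.toReal ≤ S :=
  hasSum_le h (lp.hasSum_norm (toReal_pos' hpt) x) hg

/-- Day's theorem for countable `ℓ^p`-sums. -/
theorem lp_uc (hpt : p ≠ ∞) (hp : 1 < p.toReal) [UniformConvexSpace X] :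
    UniformConvexSpace (lp (fun _ : ℕ => X) p) := by
  set r := p.toReal with hr
  have hr0 : 0 < r := by linarith
  refine ⟨fun ε hε => ?_⟩
  obtain ⟨θ, hθ, h⟩ := day_point_rpow (X := X) hp (ε := ε / 4) (by positivity)
  set κ := (ε / 4) ^ r * 2 ^ (r - 1) with hκ
  have hκ0 : 0 < κ := by positivity
  have h2κ : 2 * κ ≤ ε ^ r / 2 := by
    have e1 : 2 * κ = (ε / 4) ^ r * 2 ^ r := by
      have : (2 : ℝ) ^ r = 2 ^ (r - 1) * 2 := by
        rw [← Real.rpow_add_one (by norm_num)]; congr 1; ring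
      rw [hκ, this]; ring
    have e2 : (ε / 4) ^ r * 2 ^ r = ε ^ r / 2 ^ r := by
      rw [← Real.mul_rpow (by positivity) (by norm_num), ← Real.div_rpow hε.le (by norm_num)]
      congr 1; ring
    rw [e1, e2]
    have e3 : (2 : ℝ) ≤ 2 ^ r := by
      calc (2 : ℝ) = 2 ^ (1 : ℝ) := (Real.rpow_one 2).symm
        _ ≤ 2 ^ r := Real.rpow_le_rpow_of_exponent_le (by norm_num) hp.le
    exact div_le_div_of_nonneg_left (by positivity) (by norm_num) e3
  set δ := min 1 (θ * ε ^ r / (r * 2 ^ r)) with hδ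
  have hδ0 : 0 < δ := by positivity
  have hδ1 : δ ≤ 1 := min_le_left _ _
  have hδ2 : δ ≤ θ * ε ^ r / (r * 2 ^ r) := min_le_right _ _
  refine ⟨δ, hδ0, fun x hx y hy hxy => ?_⟩
  have hsx := lp.hasSum_norm hr0 x
  have hsy := lp.hasSum_norm hr0 y
  have hsd := lp.hasSum_norm hr0 (x - y)
  rw [hx, Real.one_rpow] at hsx
  rw [hy, Real.one_rpow] at hsy
  have hconv : ∀ s t : ℝ, 0 ≤ s → 0 ≤ t → (s + t) ^ r ≤ 2 ^ (r - 1) * (s ^ r + t ^ r) := by
    intro s t hs ht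
    have := NNReal.rpow_add_le_mul_rpow_add_rpow ⟨s, hs⟩ ⟨t, ht⟩ hp.le
    exact_mod_cast this
  have hpt' : ∀ n, ‖x n + y n‖ ^ r ≤ 2 ^ (r - 1) * (‖x n‖ ^ r + ‖y n‖ ^ r)
      - θ * (‖x n - y n‖ ^ r - κ * (‖x n‖ ^ r + ‖y n‖ ^ r)) := by
    intro n
    set a := x n
    set b := y n
    have hna := norm_nonneg a
    have hnb := norm_nonneg b
    have hS : 0 ≤ ‖a‖ ^ r + ‖b‖ ^ r := by positivity
    by_cases hc : ε / 4 * (‖a‖ + ‖b‖) ≤ ‖a - b‖
    · have h1 := h a b hc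
      have htri : ‖a - b‖ ^ r ≤ 2 ^ (r - 1) * (‖a‖ ^ r + ‖b‖ ^ r) :=
        (Real.rpow_le_rpow (norm_nonneg _) (norm_sub_le a b) hr0.le).trans (hconv _ _ hna hnb)
      have h2 : 0 ≤ θ * (κ * (‖a‖ ^ r + ‖b‖ ^ r)) := by positivity
      have h3 := mul_le_mul_of_nonneg_left htri hθ.le
      nlinarith
    · rw [not_le] at hc
      have h1 : ‖a + b‖ ^ r ≤ 2 ^ (r - 1) * (‖a‖ ^ r + ‖b‖ ^ r) :=
        (Real.rpow_le_rpow (norm_nonneg _) (norm_add_le a b) hr0.le).trans (hconv _ _ hna hnb)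
      have h2 : ‖a - b‖ ^ r ≤ κ * (‖a‖ ^ r + ‖b‖ ^ r) := by
        calc ‖a - b‖ ^ r ≤ (ε / 4 * (‖a‖ + ‖b‖)) ^ r :=
              Real.rpow_le_rpow (norm_nonneg _) hc.le hr0.le
          _ = (ε / 4) ^ r * (‖a‖ + ‖b‖) ^ r := Real.mul_rpow (by positivity) (by positivity)
          _ ≤ (ε / 4) ^ r * (2 ^ (r - 1) * (‖a‖ ^ r + ‖b‖ ^ r)) :=
              mul_le_mul_of_nonneg_left (hconv _ _ hna hnb) (by positivity)
          _ = κ * (‖a‖ ^ r + ‖b‖ ^ r) := by rw [hκ]; ring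
      have h3 := mul_nonneg hθ.le (sub_nonneg.2 h2)
      nlinarith
  have hS : ‖x + y‖ ^ r ≤ 2 ^ (r - 1) * (1 + 1)
      - θ * (‖x - y‖ ^ r - κ * (1 + 1)) := by
    refine rpow_le_of_le hpt (((hsx.add hsy).mul_left (2 ^ (r - 1))).sub
      ((hsd.sub ((hsx.add hsy).mul_left κ)).mul_left θ)) fun n => ?_
    exact hpt' n
  have h1 : ε ^ r ≤ ‖x - y‖ ^ r := Real.rpow_le_rpow hε.le hxy hr0.le
  have e2 : (2 : ℝ) ^ r = 2 ^ (r - 1) * 2 := by
    rw [← Real.rpow_add_one (by norm_num)]; congr 1; ring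
  have h2 : ‖x + y‖ ^ r ≤ 2 ^ r - θ * ε ^ r / 2 := by
    have := mul_le_mul_of_nonneg_left h1 hθ.le
    have := mul_le_mul_of_nonneg_left h2κ hθ.le
    nlinarith
  have h3 : (2 : ℝ) ^ r - θ * ε ^ r / 2 ≤ (2 - δ) ^ r := by
    have b1 := one_add_mul_self_le_rpow_one_add (s := -(δ / 2)) (by linarith) hp.le
    have b2 : (2 - δ) ^ r = 2 ^ r * (1 + -(δ / 2)) ^ r := by
      rw [← Real.mul_rpow (by norm_num) (by linarith)]; congr 1; ring
    rw [b2]
    have b3 := mul_le_mul_of_nonneg_left b1 (show (0 : ℝ) ≤ 2 ^ r by positivity)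
    have b4 : δ * (r * 2 ^ r) ≤ θ * ε ^ r := by
      rwa [le_div_iff₀ (by positivity)] at hδ2
    nlinarith
  exact (Real.rpow_le_rpow_iff (norm_nonneg _) (by linarith) hr0).1 (h2.trans h3)

/-- An element of the `ℓ^p`-sum. -/
def mkLp (x : ℕ → X) (h : Summable (fun n => ‖x n‖ ^ p.toReal)) : lp (fun _ : ℕ => X) p :=
  ⟨x, memℓp_gen h⟩

lemma clm_summable_p (hpt : p ≠ ∞) (T : X →L[ℝ] Y) (x : lp (fun _ : ℕ => X) p) :
    Summable (fun n => ‖T (x n)‖ ^ p.toReal) := by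
  have hr0 := toReal_pos' hpt
  refine Summable.of_nonneg_of_le (fun n => by positivity) (fun n => ?_)
    ((lp.hasSum_norm hr0 x).summable.mul_left (‖T‖ ^ p.toReal))
  rw [← Real.mul_rpow (norm_nonneg _) (norm_nonneg _)]
  exact Real.rpow_le_rpow (norm_nonneg _) (T.le_opNorm (x n)) hr0.le

/-- The coordinatewise action of a bounded linear map on the `ℓ^p`-sums. -/
noncomputable def lpMap (hpt : p ≠ ∞) (T : X →L[ℝ] Y) :
    lp (fun _ : ℕ => X) p →L[ℝ] lp (fun _ : ℕ => Y) p :=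
  LinearMap.mkContinuous
    { toFun := fun x => mkLp (fun n => T (x n)) (clm_summable_p hpt T x)
      map_add' := fun x y => by
        ext n
        show T ((x + y) n) = T (x n) + T (y n)
        rw [lp.coeFn_add, Pi.add_apply, map_add]
      map_smul' := fun c x => by
        ext n
        show T ((c • x) n) = c • T (x n)
        rw [lp.coeFn_smul, Pi.smul_apply, map_smul] }
    ‖T‖ (fun x => by
      have hr0 := toReal_pos' (p := p) hpt
      have h : ‖mkLp (fun n => T (x n)) (clm_summable_p hpt T x)‖ ^ p.toReal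
          ≤ ‖T‖ ^ p.toReal * ‖x‖ ^ p.toReal :=
        rpow_le_of_le hpt ((lp.hasSum_norm hr0 x).mul_left (‖T‖ ^ p.toReal)) fun n => by
          rw [← Real.mul_rpow (norm_nonneg _) (norm_nonneg _)]
          exact Real.rpow_le_rpow (norm_nonneg _) (T.le_opNorm (x n)) hr0.le
      rw [← Real.mul_rpow (norm_nonneg _) (norm_nonneg _)] at h
      exact (Real.rpow_le_rpow_iff (norm_nonneg _) (by positivity) hr0).1 h)

lemma lpMap_apply (hpt : p ≠ ∞) (T : X →L[ℝ] Y) (x : lp (fun _ : ℕ => X) p) (n : ℕ) :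
    lpMap hpt T x n = T (x n) := rfl

lemma lp_superreflexive (hpt : p ≠ ∞) (hp : 1 < p.toReal) (hX : Superreflexive X) :
    Superreflexive (lp (fun _ : ℕ => X) p) := by
  obtain ⟨X', _, _, hc, huc, ⟨e⟩⟩ := hX
  haveI := hc
  haveI := huc
  refine ⟨lp (fun _ : ℕ => X') p, inferInstance, inferInstance, inferInstance, lp_uc hpt hp,
    ⟨ContinuousLinearEquiv.equivOfInverse (lpMap hpt (e : X →L[ℝ] X'))
      (lpMap hpt (e.symm : X' →L[ℝ] X)) (fun x => ?_) (fun x => ?_)⟩⟩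
  · ext n
    rw [lpMap_apply, lpMap_apply]
    exact e.symm_apply_apply (x n)
  · ext n
    rw [lpMap_apply, lpMap_apply]
    exact e.apply_symm_apply (x n)

end

section mazur

variable {X : Type u} [NormedAddCommGroup X] [NormedSpace ℝ X]
  {p q : ℝ≥0∞} [hp1 : Fact (1 ≤ p)] [hq1 : Fact (1 ≤ q)]

lemma ratio_pos (hpt : p ≠ ∞) (hqt : q ≠ ∞) : 0 < p.toReal / q.toReal := div_pos (toReal_pos' hpt) (toReal_pos' hqt)

lemma mazur_hasSum (hpt : p ≠ ∞) (hqt : q ≠ ∞) (x : lp (fun _ : ℕ => X) p) :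
    HasSum (fun n => ‖mz (p.toReal / q.toReal) (x n)‖ ^ q.toReal) (‖x‖ ^ p.toReal) := by
  have h := lp.hasSum_norm (toReal_pos' hpt) x
  have hq0 := toReal_pos' (p := q) hqt
  have : (fun n => ‖mz (p.toReal / q.toReal) (x n)‖ ^ q.toReal)
      = fun n => ‖x n‖ ^ p.toReal := by
    funext n
    rw [norm_mz (ratio_pos hpt hqt), ← Real.rpow_mul (norm_nonneg _)]
    congr 1
    field_simp
  rw [this]
  exact h

/-- The vector valued Mazur map. -/
noncomputable def mazur (hpt : p ≠ ∞) (hqt : q ≠ ∞) (x : lp (fun _ : ℕ => X) p) : lp (fun _ : ℕ => X) q :=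
  mkLp (fun n => mz (p.toReal / q.toReal) (x n)) (mazur_hasSum hpt hqt x).summable

lemma mazur_apply (hpt : p ≠ ∞) (hqt : q ≠ ∞) (x : lp (fun _ : ℕ => X) p) (n : ℕ) :
    mazur hpt hqt x n = mz (p.toReal / q.toReal) (x n) := rfl

lemma norm_mazur (hpt : p ≠ ∞) (hqt : q ≠ ∞) (x : lp (fun _ : ℕ => X) p) :
    ‖mazur hpt hqt x‖ ^ q.toReal = ‖x‖ ^ p.toReal :=
  (lp.hasSum_norm (toReal_pos' hqt) (mazur hpt hqt x)).unique (mazur_hasSum hpt hqt x)

lemma mazur_sphere (hpt : p ≠ ∞) (hqt : q ≠ ∞) (x : sphere (0 : lp (fun _ : ℕ => X) p) 1) :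
    mazur hpt hqt (x : lp (fun _ : ℕ => X) p) ∈ sphere (0 : lp (fun _ : ℕ => X) q) 1 := by
  rw [mem_sphere_zero_iff_norm]
  have h := norm_mazur hpt hqt (x : lp (fun _ : ℕ => X) p)
  rw [sph_norm, Real.one_rpow] at h
  have hq0 := toReal_pos' (p := q) hqt
  have h1 : ‖mazur hpt hqt (x : lp (fun _ : ℕ => X) p)‖ ^ q.toReal = 1 ^ q.toReal := by
    rw [h, Real.one_rpow]
  exact (Real.rpow_left_inj (norm_nonneg _) zero_le_one hq0.ne').1 h1

lemma mazur_mazur (hpt : p ≠ ∞) (hqt : q ≠ ∞) (x : lp (fun _ : ℕ => X) p) : mazur hqt hpt (mazur hpt hqt x) = x := by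
  ext n
  rw [mazur_apply, mazur_apply]
  have hp0 := toReal_pos' (p := p) hpt
  have hq0 := toReal_pos' (p := q) hqt
  exact mz_mz (ratio_pos hpt hqt) (by field_simp) (x n)

lemma mazur_uc (hpt : p ≠ ∞) (hqt : q ≠ ∞) : UniformContinuous (fun x : sphere (0 : lp (fun _ : ℕ => X) p) 1 =>
    (⟨mazur hpt hqt (x : lp (fun _ : ℕ => X) p), mazur_sphere hpt hqt x⟩ :
      sphere (0 : lp (fun _ : ℕ => X) q) 1)) := by
  have hp0 := toReal_pos' (p := p) hpt
  have hq0 := toReal_pos' (p := q) hqt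
  rw [Metric.uniformContinuous_iff]
  intro ε hε
  have hrq : p.toReal / q.toReal * q.toReal = p.toReal := by field_simp
  obtain ⟨C, hC, h⟩ := mz_est (X := X) (ratio_pos hpt hqt) hq0
    (ε := (ε / 2) ^ q.toReal / 4) (by positivity)
  rw [hrq] at h
  refine ⟨((ε / 2) ^ q.toReal / (2 * (C + 1))) ^ (1 / p.toReal), by positivity,
    fun {x y} hxy => ?_⟩
  rw [Subtype.dist_eq, dist_eq_norm] at hxy ⊢
  have hx := lp.hasSum_norm hp0 (x : lp (fun _ : ℕ => X) p)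
  have hy := lp.hasSum_norm hp0 (y : lp (fun _ : ℕ => X) p)
  have hd := lp.hasSum_norm hp0 ((x : lp (fun _ : ℕ => X) p) - (y : lp (fun _ : ℕ => X) p))
  rw [sph_norm, Real.one_rpow] at hx hy
  have key : ‖mazur hpt hqt (x : lp (fun _ : ℕ => X) p) - mazur hpt hqt (y : lp (fun _ : ℕ => X) p)‖
      ^ q.toReal ≤ (ε / 2) ^ q.toReal / 4 * (1 + 1)
        + C * ‖(x : lp (fun _ : ℕ => X) p) - (y : lp (fun _ : ℕ => X) p)‖ ^ p.toReal := by
    refine rpow_le_of_le hqt (((hx.add hy).mul_left _).add (hd.mul_left C)) fun n => ?_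
    exact h _ _
  have h1 : ‖(x : lp (fun _ : ℕ => X) p) - (y : lp (fun _ : ℕ => X) p)‖ ^ p.toReal
      ≤ (ε / 2) ^ q.toReal / (2 * (C + 1)) := by
    have := Real.rpow_le_rpow (norm_nonneg _) hxy.le hp0.le
    rwa [← Real.rpow_mul (by positivity), one_div, inv_mul_cancel₀ hp0.ne', Real.rpow_one] at this
  have h2 : C * ‖(x : lp (fun _ : ℕ => X) p) - (y : lp (fun _ : ℕ => X) p)‖ ^ p.toReal ≤ (ε / 2) ^ q.toReal / 2 := by
    have := mul_le_mul_of_nonneg_left h1 hC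
    refine this.trans ?_
    rw [mul_div_assoc', div_le_div_iff₀ (by positivity) (by norm_num)]
    have : 0 ≤ (ε / 2) ^ q.toReal := by positivity
    nlinarith
  have h3 : ‖mazur hpt hqt (x : lp (fun _ : ℕ => X) p) - mazur hpt hqt (y : lp (fun _ : ℕ => X) p)‖
      ^ q.toReal ≤ (ε / 2) ^ q.toReal := by linarith
  have h4 := (Real.rpow_le_rpow_iff (norm_nonneg _) (by positivity) hq0).1 h3
  show ‖mazur hpt hqt (x : lp (fun _ : ℕ => X) p) - mazur hpt hqt (y : lp (fun _ : ℕ => X) p)‖ < ε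
  linarith

/-- The spheres of the `ℓ^p`-sum and of the `ℓ^q`-sum are uniformly homeomorphic. -/
theorem mazur_equiv (hpt : p ≠ ∞) (hqt : q ≠ ∞) : SpheresEquivalent (lp (fun _ : ℕ => X) p) (lp (fun _ : ℕ => X) q) :=
  ⟨{ toFun := fun x => ⟨mazur hpt hqt (x : lp (fun _ : ℕ => X) p), mazur_sphere hpt hqt x⟩
     invFun := fun x => ⟨mazur hqt hpt (x : lp (fun _ : ℕ => X) q), mazur_sphere hqt hpt x⟩
     left_inv := fun _ => Subtype.ext (mazur_mazur hpt hqt _)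
     right_inv := fun _ => Subtype.ext (mazur_mazur hqt hpt _)
     uniformContinuous_toFun := mazur_uc hpt hqt
     uniformContinuous_invFun := mazur_uc hqt hpt }⟩

lemma lp_absorbed (hpt : p ≠ ∞) (h : HilbertAbsorbed X) :
    HilbertAbsorbed (lp (fun _ : ℕ => X) p) := by
  obtain ⟨H, _, _, hc, hH, h1⟩ := ell_absorbed h
  refine ⟨H, inferInstance, inferInstance, hc, hH, eqv_iff.1 ?_⟩
  exact (Eqv.prod (eqv_iff.2 (mazur_equiv hpt (by norm_num : (2 : ℝ≥0∞) ≠ ∞))) (Eqv.rfl' H)).trans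
    (eqv_iff.2 h1)

end mazur

end Pool.Agent.Helper29.SphU
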