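import Mathlib
import Pool.Agent.Helper29.SphU.LpSum2

/-!
Tame Banach spaces are superreflexive and absorbed by a Hilbert space.
-/

universe u

set_option linter.unusedSectionVars false

namespace Pool.Agent.Helper29.SphU

open Metric Filter Topology ENNReal Pool.Agent.Helper29.SphereUniform

lemma sr_complete {X : Type u} [NormedAddCommGroup X] [NormedSpace ℝ X] (h : Superreflexive X) :
    CompleteSpace X := by
  obtain ⟨X', _, _, hc, -, ⟨e⟩⟩ := h
  haveI := hc
  exact (completeSpace_congr (e := e.toEquiv) e.isUniformEmbedding).2 hc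

/-- An infinite dimensional Hilbert space in every universe. -/
abbrev Big : Type u := lp (fun _ : ULift.{u} ℕ => ℝ) 2

lemma big_infinite : ¬ FiniteDimensional ℝ Big.{u} := by
  intro hf
  haveI := hf
  let b : HilbertBasis (ULift.{u} ℕ) ℝ Big.{u} := ⟨LinearIsometryEquiv.refl ℝ _⟩
  haveI : Finite (ULift.{u} ℕ) := b.orthonormal.linearIndependent.finite
  exact not_finite (ULift.{u} ℕ)

lemma hilbert_absorbed (X : Type u) [NormedAddCommGroup X] [InnerProductSpace ℝ X]
    [CompleteSpace X] : HilbertAbsorbed X := by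
  obtain ⟨K, _, _, hc, hK, h3, -⟩ := exists_common X Big.{u} big_infinite
  haveI := hc
  exact ⟨K, inferInstance, inferInstance, inferInstance, hK,
    eqv_iff.1 (absorb (ell_hilbert hK) (H_sq (ell_hilbert hK)) h3.symm)⟩

theorem tame_absorbed {X : Type u} [NormedAddCommGroup X] [NormedSpace ℝ X] (h : Tame X) :
    Superreflexive X ∧ HilbertAbsorbed X := by
  induction h with
  | hilbert X =>
    exact ⟨⟨X, inferInstance, inferInstance, inferInstance, inferInstance,
      ⟨ContinuousLinearEquiv.refl ℝ X⟩⟩, hilbert_absorbed X⟩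
  | sphere X Y hX hY hXY ih =>
    obtain ⟨H, _, _, hc, hH, h1⟩ := ih.2
    exact ⟨hY, H, inferInstance, inferInstance, hc, hH, eqv_iff.1
      ((Eqv.prod (eqv_iff.2 hXY).symm (Eqv.rfl' H)).trans (eqv_iff.2 h1))⟩
  | subquotient X Y hX hY ih => exact main_two ih.1 ih.2 hY
  | finrep X Y hX hY ih => exact main_four ih.1 ih.2 hY
  | sum X p hX hp hpt ih =>
    have hp' : 1 < p.toReal := by
      have := (ENNReal.toReal_lt_toReal one_ne_top hpt).2 hp
      simpa using this
    exact ⟨lp_superreflexive hpt hp' ih.1, lp_absorbed hpt ih.2⟩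
  | extension Y X Z J T hJ hT hJT hX hY hZ ihY ihZ =>
    haveI := sr_complete ihY.1
    haveI := sr_complete ihZ.1
    exact ⟨hX, main_three J T hJ hT hJT hX ihY.2 ihZ.2⟩

theorem tame_main {X : Type u} [NormedAddCommGroup X] [NormedSpace ℝ X] (h : Tame X)
    {H : Type u} [NormedAddCommGroup H] [InnerProductSpace ℝ H] [CompleteSpace H]
    (hH : ¬ FiniteDimensional ℝ H) (hd : DensityLE X H) :
    SpheresEquivalent X H ↔ ∃ (W : Type u) (_ : NormedAddCommGroup W) (_ : NormedSpace ℝ W),
      CompleteSpace W ∧ Subquotient W X ∧ SpheresEquivalent W H := by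
  obtain ⟨h1, h2⟩ := tame_absorbed h
  constructor
  · intro h3
    refine ⟨X, inferInstance, inferInstance, sr_complete h1, ⟨⊤, isClosed_univ, ?_⟩, h3⟩
    exact ⟨(⊤ : Submodule ℝ X).subtypeL, fun x => ⟨⟨x, trivial⟩, rfl⟩⟩
  · rintro ⟨W, _, _, hc, hs, hW⟩
    haveI := hc
    exact main_six hH h1 h2 hd hs hW

end Pool.Agent.Helper29.SphU
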